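import Mathlib

/-!
# Foliations on normal affine varieties: canonical divisors, interpolated structures, log canonicity

A variety is given by its function field `K` and its coordinate ring. Prime divisors on normal
birational models are given by their valuations. A foliation is given by its generic stalk, a
subspace of `Der_ℂ (K, K)` closed under the bracket; the saturated subsheaf of the tangent sheaf of
a normal model is recovered as the set of its elements that preserve the local ring.
-/

set_option autoImplicit false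

namespace Pool.Agent.H436R3.Fol

/-- A normalised discrete valuation of the field `K`, trivial on `ℂ`. (The value at `0` is
meaningless.) -/
structure DVal (K : Type) [Field K] [Algebra ℂ K] where
  ord : K → ℤ
  map_mul : ∀ f g, f ≠ 0 → g ≠ 0 → ord (f * g) = ord f + ord g
  map_add : ∀ f g, f ≠ 0 → g ≠ 0 → f + g ≠ 0 → min (ord f) (ord g) ≤ ord (f + g)
  surj : ∃ f, f ≠ 0 ∧ ord f = 1
  const : ∀ c : ℂ, c ≠ 0 → ord (algebraMap ℂ K c) = 0

variable {K : Type} [Field K] [Algebra ℂ K]

/-- `f` lies in the valuation ring `O_v`. -/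
def DVal.Reg (v : DVal K) (f : K) : Prop := f = 0 ∨ 0 ≤ v.ord f

/-- `f` lies in the maximal ideal of the valuation ring `O_v`. -/
def DVal.Pos (v : DVal K) (f : K) : Prop := f = 0 ∨ 0 < v.ord f

/-- The derivation `D` of `K` maps the valuation ring `O_v` into itself. -/
def Preserves (v : DVal K) (D : Derivation ℂ K K) : Prop := ∀ f, v.Reg f → v.Reg (D f)

/-- A normal affine variety `X = Spec R` over `ℂ` with function field `K`. -/
structure NormalAffine (K : Type) [Field K] [Algebra ℂ K] where
  R : Subalgebra ℂ K
  fg : R.FG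
  frac : ∀ f : K, ∃ a b : K, a ∈ R ∧ b ∈ R ∧ b ≠ 0 ∧ f * b = a
  normal : ∀ f : K, IsIntegral R f → f ∈ R

/-- The valuation ring `O_v` is the local ring of `Spec S` at a prime divisor: `S ⊆ O_v`, and all
elements of `O_v` are fractions of elements of `S` whose denominators are units of `O_v`. -/
def IsLocalRing' (S : Subalgebra ℂ K) (v : DVal K) : Prop :=
  (∀ f ∈ S, v.Reg f) ∧ ∀ f, v.Reg f → ∃ a b : K, a ∈ S ∧ b ∈ S ∧ b ≠ 0 ∧ v.ord b = 0 ∧ f * b = a

/-- `v` is the valuation of a prime divisor on `X`. -/
def IsDivisorOn (X : NormalAffine K) (v : DVal K) : Prop := IsLocalRing' X.R v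

/-- `v` is the valuation of a prime divisor over `X`, that is, on some normal variety with a proper
birational morphism to `X`. -/
def IsDivisorOver (X : NormalAffine K) (v : DVal K) : Prop :=
  ∃ S : Subalgebra ℂ K, S.FG ∧ X.R ≤ S ∧ IsLocalRing' S v

/-- The centre on `X` of the divisor `v` over `X` contains the closed point given by the maximal
ideal `P`. -/
def Through (X : NormalAffine K) (v : DVal K) (P : Ideal X.R) : Prop :=
  ∀ f : X.R, v.Pos (f : K) → f ∈ P

/-- A foliation of rank `r` on the varieties with function field `K`: the span of `r` linearly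
independent rational vector fields, closed under the bracket. -/
structure Foliation (K : Type) [Field K] [Algebra ℂ K] (r : ℕ) where
  D : Fin r → Derivation ℂ K K
  indep : LinearIndependent K D
  closed : ∀ i j, ⁅D i, D j⁆ ∈ Submodule.span K (Set.range D)

/-- The generic stalk of the foliation. -/
def Foliation.space {r : ℕ} (F : Foliation K r) : Submodule K (Derivation ℂ K K) :=
  Submodule.span K (Set.range F.D)

/-- `n` is the multiplicity of the prime divisor `v` in the canonical divisor `K_F`, the divisor of
the rational section `ω` of `det F^*` with `ω (D_1, ..., D_r) = 1`: the least order at `v` of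
`ω (g_1, ..., g_r)`, for local sections `g_i` of the saturated sheaf `F ⊆ T` at the generic point of
the divisor. -/
def IsCanOrd {r : ℕ} (F : Foliation K r) (v : DVal K) (n : ℤ) : Prop :=
  IsLeast {m : ℤ | ∃ A : Matrix (Fin r) (Fin r) K, A.det ≠ 0 ∧
    (∀ i, Preserves v (∑ j, A i j • F.D j)) ∧ v.ord A.det = m} n

/-- The prime divisor `v` is invariant under the foliation: the local sections of `F` preserve the
ideal of the divisor. -/
def IsInvariant {r : ℕ} (F : Foliation K r) (v : DVal K) : Prop :=
  ∀ D ∈ F.space, Preserves v D → ∀ f, v.Pos f → v.Pos (D f)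

open Classical in
/-- `ε_F(v)`: `0` if the divisor is invariant and `1` otherwise. -/
noncomputable def eps {r : ℕ} (F : Foliation K r) (v : DVal K) : ℝ :=
  if IsInvariant F v then 0 else 1

variable {r s : ℕ}

/-- Near the point `P`, the divisor `t K_F + (1 - t) K_G` on `X` is `∑ ρ_i div (g_i)`. -/
def IsLocalEq (X : NormalAffine K) (F : Foliation K r) (G : Foliation K s) (t : ℝ)
    (P : Ideal X.R) (n : ℕ) (ρ : Fin n → ℝ) (g : Fin n → K) : Prop :=
  (∀ i, g i ≠ 0) ∧ ∀ v, IsDivisorOn X v → Through X v P →
    ∃ a b : ℤ, IsCanOrd F v a ∧ IsCanOrd G v b ∧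
      t * a + (1 - t) * b = ∑ i, ρ i * (v.ord (g i) : ℝ)

/-- The divisor `t K_F + (1 - t) K_G` on `X` is `ℝ`-Cartier: near every closed point it is a real
linear combination of principal divisors. -/
def IsRCartier (X : NormalAffine K) (F : Foliation K r) (G : Foliation K s) (t : ℝ) : Prop :=
  ∀ P : Ideal X.R, P.IsMaximal → ∃ (n : ℕ) (ρ : Fin n → ℝ) (g : Fin n → K),
    IsLocalEq X F G t P n ρ g

/-- `(G, F, t)` is a structure (`t K_F + (1 - t) K_G` is `ℝ`-Cartier) and it is log canonical: for
all prime divisors `v` over `X`, the discrepancy `a_v`, the multiplicity at `v` of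
`t K_F + (1 - t) K_G` minus the pull-back of this divisor from `X`, is at least
`-(t ε_F(v) + (1 - t) ε_G(v))`. -/
def IsLC (X : NormalAffine K) (F : Foliation K r) (G : Foliation K s) (t : ℝ) : Prop :=
  ∀ P : Ideal X.R, P.IsMaximal → ∃ (n : ℕ) (ρ : Fin n → ℝ) (g : Fin n → K),
    IsLocalEq X F G t P n ρ g ∧
    ∀ v, IsDivisorOver X v → Through X v P → ∃ a b : ℤ, IsCanOrd F v a ∧ IsCanOrd G v b ∧
      -(t * eps F v + (1 - t) * eps G v) ≤ t * a + (1 - t) * b - ∑ i, ρ i * (v.ord (g i) : ℝ)

/-- The set `T(F, G)` of all `t ∈ [0, 1]` such that `(G, F, t)` is a log canonical structure. -/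
def lcSet (X : NormalAffine K) (F : Foliation K r) (G : Foliation K s) : Set ℝ :=
  {t | 0 ≤ t ∧ t ≤ 1 ∧ IsLC X F G t}

/-- The ascending chain condition: there is no strictly increasing infinite sequence. -/
def SatisfiesACC (Γ : Set ℝ) : Prop := ∀ x : ℕ → ℝ, (∀ n, x n ∈ Γ) → ¬ StrictMono x

end Pool.Agent.H436R3.Fol
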