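import Mathlib
import Pool.Agent.H436R3.Fol.Defs

/-!
# The valuation of a prime element of a unique factorisation domain
-/

set_option autoImplicit false

namespace Pool.Agent.H436R3.Fol

namespace DVal

variable {K : Type} [Field K] [Algebra ℂ K] (v : DVal K)

theorem ord_one : v.ord 1 = 0 := by
  have := v.map_mul 1 1 one_ne_zero one_ne_zero
  rw [mul_one] at this
  omega

theorem ord_inv {f : K} (hf : f ≠ 0) : v.ord f⁻¹ = -v.ord f := by
  have := v.map_mul f f⁻¹ hf (inv_ne_zero hf)
  rw [mul_inv_cancel₀ hf, v.ord_one] at this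
  omega

theorem ord_div {f g : K} (hf : f ≠ 0) (hg : g ≠ 0) : v.ord (f / g) = v.ord f - v.ord g := by
  rw [div_eq_mul_inv, v.map_mul f _ hf (inv_ne_zero hg), v.ord_inv hg]
  ring

theorem ord_pow {f : K} (hf : f ≠ 0) (n : ℕ) : v.ord (f ^ n) = n * v.ord f := by
  induction n with
  | zero => simp [v.ord_one]
  | succ n ih =>
    rw [pow_succ, v.map_mul _ _ (pow_ne_zero _ hf) hf, ih]
    push_cast
    ring

theorem ord_zpow {f : K} (hf : f ≠ 0) (n : ℤ) : v.ord (f ^ n) = n * v.ord f := by
  rcases n with n | n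
  · simp [v.ord_pow hf]
  · rw [zpow_negSucc, v.ord_inv (pow_ne_zero _ hf), v.ord_pow hf]
    push_cast [Int.negSucc_eq]
    ring

theorem ord_neg {f : K} (hf : f ≠ 0) : v.ord (-f) = v.ord f := by
  have h1 : -f = algebraMap ℂ K (-1) * f := by simp
  rw [h1, v.map_mul _ _ (by simp) hf, v.const (-1) (by simp)]
  ring

theorem ord_prod {ι : Type} (s : Finset ι) (g : ι → K) (hg : ∀ i ∈ s, g i ≠ 0) :
    v.ord (∏ i ∈ s, g i) = ∑ i ∈ s, v.ord (g i) := by
  classical
  induction s using Finset.induction_on with
  | empty => simp [v.ord_one]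
  | insert a s ha ih =>
    rw [Finset.prod_insert ha, Finset.sum_insert ha,
      v.map_mul _ _ (hg a (Finset.mem_insert_self _ _))
        (Finset.prod_ne_zero_iff.2 fun i hi => hg i (Finset.mem_insert_of_mem hi)),
      ih fun i hi => hg i (Finset.mem_insert_of_mem hi)]

theorem reg_zero : v.Reg 0 := Or.inl rfl

theorem reg_one : v.Reg 1 := Or.inr v.ord_one.ge

theorem reg_mul {f g : K} (hf : v.Reg f) (hg : v.Reg g) : v.Reg (f * g) := by
  by_cases h1 : f = 0
  · left; rw [h1, zero_mul]
  by_cases h2 : g = 0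
  · left; rw [h2, mul_zero]
  right
  rw [v.map_mul f g h1 h2]
  have := hf.resolve_left h1
  have := hg.resolve_left h2
  omega

theorem reg_add {f g : K} (hf : v.Reg f) (hg : v.Reg g) : v.Reg (f + g) := by
  by_cases h1 : f = 0
  · rwa [h1, zero_add]
  by_cases h2 : g = 0
  · rwa [h2, add_zero]
  by_cases h3 : f + g = 0
  · left; exact h3
  right
  have h4 := v.map_add f g h1 h2 h3
  have := hf.resolve_left h1
  have := hg.resolve_left h2
  omega

theorem reg_neg {f : K} (hf : v.Reg f) : v.Reg (-f) := by
  by_cases h1 : f = 0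
  · left; rw [h1, neg_zero]
  · right
    rw [v.ord_neg h1]
    exact hf.resolve_left h1

/-- The valuation ring. -/
def O : Subring K where
  carrier := {f | v.Reg f}
  mul_mem' := v.reg_mul
  one_mem' := v.reg_one
  add_mem' := v.reg_add
  zero_mem' := v.reg_zero
  neg_mem' := v.reg_neg

theorem mem_O {f : K} : f ∈ v.O ↔ v.Reg f := Iff.rfl

theorem reg_const (c : ℂ) : v.Reg (algebraMap ℂ K c) := by
  by_cases hc : c = 0
  · left; rw [hc, map_zero]
  · right; rw [v.const c hc]

theorem pos_mul_left {f g : K} (hf : v.Reg f) (hg : v.Pos g) : v.Pos (f * g) := by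
  by_cases h1 : f = 0
  · left; rw [h1, zero_mul]
  by_cases h2 : g = 0
  · left; rw [h2, mul_zero]
  right
  rw [v.map_mul f g h1 h2]
  have := hf.resolve_left h1
  have := hg.resolve_left h2
  omega

theorem pos_add {f g : K} (hf : v.Pos f) (hg : v.Pos g) : v.Pos (f + g) := by
  by_cases h1 : f = 0
  · rwa [h1, zero_add]
  by_cases h2 : g = 0
  · rwa [h2, add_zero]
  by_cases h3 : f + g = 0
  · left; exact h3
  right
  have h4 := v.map_add f g h1 h2 h3
  have := hf.resolve_left h1
  have := hg.resolve_left h2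
  omega

theorem ext {v w : DVal K} (h : ∀ f, v.ord f = w.ord f) : v = w := by
  cases v; cases w
  congr
  funext f
  exact h f

end DVal

section UFD

set_option linter.unusedSectionVars false

variable {A K : Type} [CommRing A] [IsDomain A] [UniqueFactorizationMonoid A] [Algebra ℂ A]
  [Field K] [Algebra ℂ K] [Algebra A K] [IsFractionRing A K] [IsScalarTower ℂ A K]

theorem finMult {p a : A} (hp : Prime p) (ha : a ≠ 0) : FiniteMultiplicity p a :=
  FiniteMultiplicity.of_not_isUnit hp.not_isUnit ha

theorem mult_mul {p a b : A} (hp : Prime p) (ha : a ≠ 0) (hb : b ≠ 0) :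
    multiplicity p (a * b) = multiplicity p a + multiplicity p b :=
  multiplicity_mul hp (finMult hp (mul_ne_zero ha hb))

theorem mult_add {p a b : A} (hp : Prime p) (hab : a + b ≠ 0) :
    min (multiplicity p a) (multiplicity p b) ≤ multiplicity p (a + b) := by
  apply (finMult hp hab).le_multiplicity_of_pow_dvd
  exact dvd_add ((pow_dvd_pow _ (min_le_left _ _)).trans (pow_multiplicity_dvd _ _))
    ((pow_dvd_pow _ (min_le_right _ _)).trans (pow_multiplicity_dvd _ _))

variable (A) in
/-- Every element of `K` is a fraction. -/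
theorem exists_frac (f : K) : ∃ a b : A, b ≠ 0 ∧ f = algebraMap A K a / algebraMap A K b := by
  obtain ⟨a, b, hb, rfl⟩ := IsFractionRing.div_surjective (A := A) f
  exact ⟨a, b, nonZeroDivisors.ne_zero hb, rfl⟩

variable (A) in
theorem exists_frac2 (f : K) : ∃ q : A × A, q.2 ≠ 0 ∧
    f = algebraMap A K q.1 / algebraMap A K q.2 := by
  obtain ⟨a, b, hb, h⟩ := exists_frac A f
  exact ⟨(a, b), hb, h⟩

/-- The order at the prime `p`. -/
noncomputable def ordP (p : A) (f : K) : ℤ :=
  (multiplicity p (Classical.choose (exists_frac2 A f)).1 : ℤ) -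
    multiplicity p (Classical.choose (exists_frac2 A f)).2

theorem ordP_div {p a b : A} (hp : Prime p) (ha : a ≠ 0) (hb : b ≠ 0) :
    ordP p (algebraMap A K a / algebraMap A K b) = (multiplicity p a : ℤ) - multiplicity p b := by
  have h := Classical.choose_spec (exists_frac2 A (algebraMap A K a / algebraMap A K b))
  rw [ordP]
  generalize Classical.choose (exists_frac2 A (algebraMap A K a / algebraMap A K b)) = q at h ⊢
  obtain ⟨a', b'⟩ := q
  obtain ⟨hb', h⟩ := h
  simp only at hb' h ⊢
  have hinj := IsFractionRing.injective A K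
  have e1 : algebraMap A K b ≠ 0 := (map_ne_zero_iff _ hinj).2 hb
  have e2 : algebraMap A K b' ≠ 0 := (map_ne_zero_iff _ hinj).2 hb'
  rw [div_eq_div_iff e1 e2, ← map_mul, ← map_mul] at h
  have h1 : a * b' = a' * b := hinj h
  have ha' : a' ≠ 0 := by
    intro h0
    rw [h0, zero_mul] at h1
    exact mul_ne_zero ha hb' h1
  have h2 : multiplicity p (a * b') = multiplicity p (a' * b) := by rw [h1]
  rw [mult_mul hp ha hb', mult_mul hp ha' hb] at h2
  omega

theorem ordP_algebraMap {p a : A} (hp : Prime p) (ha : a ≠ 0) :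
    ordP p (algebraMap A K a) = (multiplicity p a : ℤ) := by
  have := ordP_div (K := K) hp ha one_ne_zero
  rw [map_one, div_one, multiplicity_of_one_right hp.not_isUnit] at this
  simpa using this

variable (K) in
/-- The valuation of a prime element. -/
noncomputable def valP (p : A) (hp : Prime p) : DVal K where
  ord := ordP p
  map_mul := by
    intro f g hf hg
    obtain ⟨a, b, hb, rfl⟩ := exists_frac A f
    obtain ⟨c, d, hd, rfl⟩ := exists_frac A g
    have ha : a ≠ 0 := by rintro rfl; simp at hf
    have hc : c ≠ 0 := by rintro rfl; simp at hg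
    rw [div_mul_div_comm, ← map_mul, ← map_mul, ordP_div hp (mul_ne_zero ha hc)
      (mul_ne_zero hb hd), ordP_div hp ha hb, ordP_div hp hc hd, mult_mul hp ha hc,
      mult_mul hp hb hd]
    push_cast
    ring
  map_add := by
    intro f g hf hg hfg
    obtain ⟨a, b, hb, rfl⟩ := exists_frac A f
    obtain ⟨c, d, hd, rfl⟩ := exists_frac A g
    have ha : a ≠ 0 := by rintro rfl; simp at hf
    have hc : c ≠ 0 := by rintro rfl; simp at hg
    have hinj := IsFractionRing.injective A K
    have e1 : algebraMap A K b ≠ 0 := (map_ne_zero_iff _ hinj).2 hb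
    have e2 : algebraMap A K d ≠ 0 := (map_ne_zero_iff _ hinj).2 hd
    have e3 : algebraMap A K a / algebraMap A K b + algebraMap A K c / algebraMap A K d =
        algebraMap A K (a * d + b * c) / algebraMap A K (b * d) := by
      rw [div_add_div _ _ e1 e2, map_add, map_mul, map_mul, map_mul]
    have e4 : a * d + b * c ≠ 0 := by
      intro h0
      rw [e3, h0] at hfg
      simp at hfg
    rw [e3, ordP_div hp e4 (mul_ne_zero hb hd), ordP_div hp ha hb, ordP_div hp hc hd]
    have h1 := mult_add hp e4
    rw [mult_mul hp ha hd, mult_mul hp hb hc] at h1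
    rw [mult_mul hp hb hd]
    push_cast
    omega
  surj := by
    refine ⟨algebraMap A K p, ?_, ?_⟩
    · exact (map_ne_zero_iff _ (IsFractionRing.injective A K)).2 hp.ne_zero
    · rw [ordP_algebraMap hp hp.ne_zero, multiplicity_self]
      rfl
  const := by
    intro c hc
    rw [IsScalarTower.algebraMap_apply ℂ A K, ordP_algebraMap hp]
    · rw [multiplicity_of_isUnit_right hp.not_isUnit]
      · rfl
      · exact (isUnit_iff_ne_zero.2 hc).map (algebraMap ℂ A)
    · have := (isUnit_iff_ne_zero.2 hc).map (algebraMap ℂ A)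
      exact this.ne_zero

theorem valP_ord {p a : A} (hp : Prime p) (ha : a ≠ 0) :
    (valP K p hp).ord (algebraMap A K a) = (multiplicity p a : ℤ) := ordP_algebraMap hp ha

theorem valP_reg {p : A} (hp : Prime p) (a : A) : (valP K p hp).Reg (algebraMap A K a) := by
  by_cases ha : a = 0
  · left; rw [ha, map_zero]
  · right; rw [valP_ord hp ha]; omega

theorem valP_pos_iff {p : A} (hp : Prime p) (a : A) :
    (valP K p hp).Pos (algebraMap A K a) ↔ p ∣ a := by
  by_cases ha : a = 0
  · rw [ha, map_zero]
    exact ⟨fun _ => dvd_zero _, fun _ => Or.inl rfl⟩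
  · rw [← dvd_iff_multiplicity_pos, DVal.Pos, valP_ord hp ha]
    constructor
    · rintro (h | h)
      · exact absurd ((map_eq_zero_iff _ (IsFractionRing.injective A K)).1 h) ha
      · omega
    · intro h
      right
      omega

/-- An element of the valuation ring of `p` is a fraction with denominator not divisible by
`p`. -/
theorem exists_frac_of_reg {p : A} (hp : Prime p) {f : K} (hf : (valP K p hp).Reg f) :
    ∃ a b : A, b ≠ 0 ∧ ¬ p ∣ b ∧ f = algebraMap A K a / algebraMap A K b := by
  obtain ⟨a, b, hab, rfl⟩ := IsFractionRing.exists_reduced_fraction (A := A) f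
  have hb : (b : A) ≠ 0 := nonZeroDivisors.ne_zero b.2
  refine ⟨a, b, hb, ?_, by rw [IsFractionRing.mk'_eq_div]⟩
  intro hpb
  by_cases ha : a = 0
  · rw [ha] at hab
    exact hp.not_isUnit (hab (dvd_zero p) hpb)
  have hpa : ¬ p ∣ a := fun h => hp.not_isUnit (hab h hpb)
  rw [IsFractionRing.mk'_eq_div] at hf
  have h1 := hf.resolve_left (by
    rw [div_eq_zero_iff, not_or]
    have hinj := IsFractionRing.injective A K
    exact ⟨(map_ne_zero_iff _ hinj).2 ha, (map_ne_zero_iff _ hinj).2 hb⟩)
  have h2 : (valP K p hp).ord (algebraMap A K a / algebraMap A K b) =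
    (multiplicity p a : ℤ) - multiplicity p (b : A) := ordP_div hp ha hb
  rw [h2] at h1
  have h3 := dvd_iff_multiplicity_pos.2 hpb
  have h4 : multiplicity p a = 0 := multiplicity_eq_zero.2 hpa
  omega

end UFD

end Pool.Agent.H436R3.Fol
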