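import Mathlib
import Pool.Agent.H436R3.Fol.Val
import Pool.Agent.H436R3.Fol.Defs

/-!
# Logarithmic derivatives and lower bounds for canonical orders
-/

set_option autoImplicit false

namespace Pool.Agent.H436R3.Fol

variable {K : Type} [Field K] [Algebra ℂ K] (v : DVal K)

theorem DVal.reg_of_ord {f : K} (h : 0 ≤ v.ord f) : v.Reg f := Or.inr h

theorem DVal.ord_nonneg {f : K} (hf : f ≠ 0) (h : v.Reg f) : 0 ≤ v.ord f :=
  h.resolve_left hf

theorem DVal.reg_inv {f : K} (hf : f ≠ 0) (h : v.ord f = 0) : v.Reg f⁻¹ :=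
  Or.inr (by rw [v.ord_inv hf, h, neg_zero])

theorem DVal.reg_sub {f g : K} (hf : v.Reg f) (hg : v.Reg g) : v.Reg (f - g) := by
  rw [sub_eq_add_neg]
  exact v.reg_add hf (v.reg_neg hg)

theorem DVal.reg_intCast (n : ℤ) : v.Reg (n : K) := by
  have h := intCast_mem v.O n
  rwa [DVal.mem_O] at h

theorem logDer_mul {D : Derivation ℂ K K} {f g : K} (hf : f ≠ 0) (hg : g ≠ 0) :
    D (f * g) / (f * g) = D f / f + D g / g := by
  rw [Derivation.leibniz, smul_eq_mul, smul_eq_mul]
  field_simp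
  ring

theorem logDer_zpow {D : Derivation ℂ K K} {f : K} (hf : f ≠ 0) (n : ℤ) :
    D (f ^ n) / f ^ n = n * (D f / f) := by
  have h1 : ∀ n : ℕ, D (f ^ n) / f ^ n = n * (D f / f) := by
    intro n
    induction n with
    | zero => simp
    | succ n ih =>
      rw [pow_succ, logDer_mul (pow_ne_zero _ hf) hf, ih]
      push_cast
      ring
  obtain ⟨m, rfl | rfl⟩ := n.eq_nat_or_neg
  · simpa using h1 m
  · have h2 := logDer_mul (D := D) (pow_ne_zero m hf) (inv_ne_zero (pow_ne_zero m hf))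
    rw [mul_inv_cancel₀ (pow_ne_zero m hf), h1] at h2
    have h3 : D (1 : K) = 0 := D.map_one_eq_zero
    rw [h3, zero_div] at h2
    rw [zpow_neg, zpow_natCast]
    push_cast
    linear_combination -h2

/-- The logarithmic derivative along a vector field that preserves the valuation ring is the
multiple of the logarithmic derivative of a uniformiser given by the order, up to a regular
element. -/
theorem logDer_sub {D : Derivation ℂ K K} (hD : Preserves v D) {π : K} (hπ : π ≠ 0)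
    (h1 : v.ord π = 1) {f : K} (hf : f ≠ 0) :
    v.Reg (D f / f - v.ord f * (D π / π)) := by
  have h2 : f = π ^ v.ord f * (f * (π ^ v.ord f)⁻¹) := by
    rw [mul_comm f, ← mul_assoc, mul_inv_cancel₀ (zpow_ne_zero _ hπ), one_mul]
  have h3 : f * (π ^ v.ord f)⁻¹ ≠ 0 := mul_ne_zero hf (inv_ne_zero (zpow_ne_zero _ hπ))
  have h4 : v.ord (f * (π ^ v.ord f)⁻¹) = 0 := by
    rw [v.map_mul _ _ hf (inv_ne_zero (zpow_ne_zero _ hπ)), v.ord_inv (zpow_ne_zero _ hπ),
      v.ord_zpow hπ, h1, mul_one, add_neg_cancel]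
  have h5 : D f / f = v.ord f * (D π / π) +
      D (f * (π ^ v.ord f)⁻¹) / (f * (π ^ v.ord f)⁻¹) := by
    rw [← logDer_zpow hπ, ← logDer_mul (zpow_ne_zero _ hπ) h3, ← h2]
  rw [h5, add_sub_cancel_left, div_eq_mul_inv]
  exact v.reg_mul (hD _ (v.reg_of_ord h4.ge)) (v.reg_inv h3 h4)

theorem reg_pi_logDer {D : Derivation ℂ K K} (hD : Preserves v D) {π : K} (hπ : π ≠ 0)
    (h1 : v.ord π = 1) : v.Reg (π * (D π / π)) := by
  rw [mul_div_cancel₀ _ hπ]
  exact hD _ (v.reg_of_ord (by rw [h1]; norm_num))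

theorem reg_logDer_of_inv {D : Derivation ℂ K K} {π : K} (hπ : π ≠ 0)
    (h1 : v.ord π = 1) (hI : ∀ f, v.Pos f → v.Pos (D f)) : v.Reg (D π / π) := by
  rcases hI π (Or.inr (by rw [h1]; norm_num)) with h | h
  · rw [h, zero_div]
    exact v.reg_zero
  · by_cases h0 : D π = 0
    · rw [h0, zero_div]
      exact v.reg_zero
    · refine v.reg_of_ord ?_
      rw [v.ord_div h0 hπ, h1]
      omega

/-- If a multiple of `f` by a uniformiser is regular, the order is at least `-1`. -/
theorem DVal.neg_one_le {π f : K} (hπ : π ≠ 0) (h1 : v.ord π = 1) (hf : f ≠ 0)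
    (h : v.Reg (π * f)) : -1 ≤ v.ord f := by
  have h2 := v.ord_nonneg (mul_ne_zero hπ hf) h
  rw [v.map_mul _ _ hπ hf, h1] at h2
  omega

theorem det_mem (S : Subring K) {n : ℕ} (M : Matrix (Fin n) (Fin n) K) (h : ∀ i j, M i j ∈ S) :
    M.det ∈ S := by
  rw [Matrix.det_apply']
  exact sum_mem fun σ _ => mul_mem (intCast_mem _ _) (prod_mem fun i _ => h _ _)

/-- The expansion of the determinant of a rank one perturbation. -/
theorem det_rankOne (α : Matrix (Fin 3) (Fin 3) K) (β n : Fin 3 → K) (π : K) :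
    π * (Matrix.of fun i j => α i j + n j * β i).det =
      π * α.det + ((π * β 0) * (α.updateRow 0 n).det + (π * β 1) * (α.updateRow 1 n).det +
        (π * β 2) * (α.updateRow 2 n).det) := by
  simp only [Matrix.det_fin_three, Matrix.of_apply, Matrix.updateRow_apply]
  simp
  ring

theorem det_rankOne_mem (S : Subring K) {A : Matrix (Fin 3) (Fin 3) K} {β n : Fin 3 → K} {π : K}
    (hA : ∀ i j, A i j - n j * β i ∈ S) (hβ : ∀ i, π * β i ∈ S) (hn : ∀ j, n j ∈ S)
    (hπ : π ∈ S) : π * A.det ∈ S := by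
  have h1 : A = Matrix.of fun i j => (Matrix.of fun i j => A i j - n j * β i) i j + n j * β i := by
    ext i j
    simp
  rw [h1, det_rankOne]
  have h2 : ∀ i, ((Matrix.of fun i j => A i j - n j * β i).updateRow i n).det ∈ S := by
    intro i
    refine det_mem S _ fun i' j' => ?_
    rw [Matrix.updateRow_apply]
    split_ifs
    · exact hn _
    · exact hA _ _
  exact add_mem (mul_mem hπ (det_mem S _ hA)) (add_mem (add_mem (mul_mem (hβ _) (h2 _))
    (mul_mem (hβ _) (h2 _))) (mul_mem (hβ _) (h2 _)))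

/-- A derivation mapping a subring to the valuation ring preserves the valuation ring if the latter
is a localisation of the former. -/
theorem preserves_of {S : Subalgebra ℂ K} (h : IsLocalRing' S v) {D : Derivation ℂ K K}
    (hD : ∀ f ∈ S, v.Reg (D f)) : Preserves v D := by
  intro f hf
  obtain ⟨a, b, ha, hb, hb0, hob, hab⟩ := h.2 f hf
  have h1 : D f = (D a - f * D b) * b⁻¹ := by
    rw [← hab, Derivation.leibniz, smul_eq_mul, smul_eq_mul]
    field_simp
    ring
  rw [h1]
  exact v.reg_mul (v.reg_sub (hD a ha) (v.reg_mul hf (hD b hb))) (v.reg_inv hb0 hob)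

/-- A multiple of a derivation preserves a finitely generated subalgebra. -/
theorem exists_smul_mem {S : Subalgebra ℂ K} (hS : S.FG)
    (hfrac : ∀ f : K, ∃ a b : K, a ∈ S ∧ b ∈ S ∧ b ≠ 0 ∧ f * b = a) (D : Derivation ℂ K K) :
    ∃ b : K, b ≠ 0 ∧ ∀ f ∈ S, b * D f ∈ S := by
  classical
  obtain ⟨s, rfl⟩ := hS
  have h1 : ∀ u : Finset K, ∃ b : K, b ≠ 0 ∧ b ∈ Algebra.adjoin ℂ (s : Set K) ∧
      ∀ f ∈ u, b * D f ∈ Algebra.adjoin ℂ (s : Set K) := by
    intro u
    induction u using Finset.induction_on with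
    | empty => exact ⟨1, one_ne_zero, one_mem _, fun f hf => absurd hf (Finset.notMem_empty f)⟩
    | insert g u hg ih =>
      obtain ⟨b, hb0, hb, hu⟩ := ih
      obtain ⟨a', b', ha', hb', hb0', hab⟩ := hfrac (D g)
      refine ⟨b * b', mul_ne_zero hb0 hb0', mul_mem hb hb', fun f hf => ?_⟩
      rw [Finset.mem_insert] at hf
      rcases hf with rfl | hf
      · have h2 : b * b' * D f = b * a' := by rw [← hab]; ring
        rw [h2]
        exact mul_mem hb ha'
      · have h2 : b * b' * D f = b' * (b * D f) := by ring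
        rw [h2]
        exact mul_mem hb' (hu f hf)
  obtain ⟨b, hb0, hb, hu⟩ := h1 s
  refine ⟨b, hb0, fun f hf => ?_⟩
  induction hf using Algebra.adjoin_induction with
  | mem f hf => exact hu f hf
  | algebraMap c => rw [Derivation.map_algebraMap, mul_zero]; exact zero_mem _
  | add f g _ _ hf hg => rw [map_add, mul_add]; exact add_mem hf hg
  | mul f g hf' hg' hf hg =>
    rw [Derivation.leibniz, smul_eq_mul, smul_eq_mul]
    have h2 : b * (f * D g + g * D f) = f * (b * D g) + g * (b * D f) := by ring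
    rw [h2]
    exact add_mem (mul_mem hf' hg) (mul_mem hg' hf)

theorem exists_matrix {X : NormalAffine K} (hv : IsDivisorOver X v) {r : ℕ} (F : Foliation K r) :
    ∃ A : Matrix (Fin r) (Fin r) K, A.det ≠ 0 ∧
      ∀ i, Preserves v (∑ j, A i j • F.D j) := by
  classical
  obtain ⟨S, hS, hXS, hSv⟩ := hv
  have hfrac : ∀ f : K, ∃ a b : K, a ∈ S ∧ b ∈ S ∧ b ≠ 0 ∧ f * b = a := by
    intro f
    obtain ⟨a, b, ha, hb, hb0, hab⟩ := X.frac f
    exact ⟨a, b, hXS ha, hXS hb, hb0, hab⟩
  choose b hb0 hb using fun i => exists_smul_mem hS hfrac (F.D i)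
  refine ⟨Matrix.diagonal b, ?_, fun i => ?_⟩
  · rw [Matrix.det_diagonal]
    exact Finset.prod_ne_zero_iff.2 fun i _ => hb0 i
  · have h1 : (∑ j, Matrix.diagonal b i j • F.D j) = b i • F.D i := by
      rw [Finset.sum_eq_single i]
      · rw [Matrix.diagonal_apply_eq]
      · intro j _ hj
        rw [Matrix.diagonal_apply_ne _ hj.symm, zero_smul]
      · intro h
        exact absurd (Finset.mem_univ _) h
    rw [h1]
    refine preserves_of v hSv fun f hf => ?_
    rw [Derivation.smul_apply, smul_eq_mul]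
    exact hSv.1 _ (hb i f hf)

/-- The canonical order exists as soon as the orders are bounded below. -/
theorem exists_isCanOrd {X : NormalAffine K} (hv : IsDivisorOver X v) {r : ℕ} (F : Foliation K r)
    {c : ℤ} (hc : ∀ A : Matrix (Fin r) (Fin r) K, A.det ≠ 0 →
      (∀ i, Preserves v (∑ j, A i j • F.D j)) → c ≤ v.ord A.det) :
    ∃ a : ℤ, IsCanOrd F v a ∧ c ≤ a := by
  obtain ⟨A, hA, hA'⟩ := exists_matrix v hv F
  obtain ⟨a, ⟨B, hB, hB', hBa⟩, ha⟩ := Int.exists_least_of_bdd
    (P := fun m => ∃ A : Matrix (Fin r) (Fin r) K, A.det ≠ 0 ∧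
      (∀ i, Preserves v (∑ j, A i j • F.D j)) ∧ v.ord A.det = m)
    ⟨c, fun m ⟨B, hB, hB', hBm⟩ => hBm ▸ hc B hB hB'⟩ ⟨_, A, hA, hA', rfl⟩
  exact ⟨a, ⟨⟨B, hB, hB', hBa⟩, fun m hm => ha m hm⟩, hBa ▸ hc B hB hB'⟩

end Pool.Agent.H436R3.Fol
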