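import Mathlib
import Pool.Agent.H436R3.Fol.Val

/-!
# The affine cone over the scroll `S(1, k)` and its involution
-/

set_option autoImplicit false

namespace Pool.Agent.H436R3.Fol

open MvPolynomial

/-- The polynomial ring in three variables. -/
abbrev Q3 : Type := MvPolynomial (Fin 3) ℂ

/-- The field of rational functions in three variables. -/
abbrev K3 : Type := FractionRing Q3

/-- The inclusion. -/
noncomputable def io : Q3 →ₐ[ℂ] K3 := IsScalarTower.toAlgHom ℂ Q3 K3

theorem io_apply (q : Q3) : io q = algebraMap Q3 K3 q := rfl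

theorem io_inj : Function.Injective io := IsFractionRing.injective Q3 K3

noncomputable def x : K3 := io (X 0)
noncomputable def y : K3 := io (X 1)
noncomputable def z : K3 := io (X 2)

theorem x_ne : x ≠ 0 := (map_ne_zero_iff io io_inj).2 (X_ne_zero _)
theorem y_ne : y ≠ 0 := (map_ne_zero_iff io io_inj).2 (X_ne_zero _)
theorem z_ne : z ≠ 0 := (map_ne_zero_iff io io_inj).2 (X_ne_zero _)

theorem io_monomial (m : Fin 3 →₀ ℕ) (c : ℂ) :
    io (monomial m c) = algebraMap ℂ K3 c * (x ^ m 0 * y ^ m 1 * z ^ m 2) := by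
  rw [monomial_eq, map_mul, Finsupp.prod_fintype _ _ (by simp), Fin.prod_univ_three]
  simp only [map_mul, map_pow]
  rfl

variable (k : ℕ)

/-- The images of the variables under the involution. -/
noncomputable def sg0 : Q3 →ₐ[ℂ] K3 := aeval ![x * y ^ k, y⁻¹, y * z]

theorem sg0_monomial (m : Fin 3 →₀ ℕ) (c : ℂ) :
    sg0 k (monomial m c) = algebraMap ℂ K3 c * ((x * y ^ k) ^ m 0 * y⁻¹ ^ m 1 * (y * z) ^ m 2) := by
  rw [sg0, aeval_monomial, Finsupp.prod_fintype _ _ (by simp), Fin.prod_univ_three]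
  rfl

/-- The twisted exponent. -/
noncomputable def ex (N : ℕ) (m : Fin 3 →₀ ℕ) : Fin 3 →₀ ℕ :=
  Finsupp.equivFunOnFinite.symm ![m 0, N + k * m 0 + m 2 - m 1, m 2]

theorem ex_zero (N : ℕ) (m : Fin 3 →₀ ℕ) : ex k N m 0 = m 0 := rfl
theorem ex_one (N : ℕ) (m : Fin 3 →₀ ℕ) : ex k N m 1 = N + k * m 0 + m 2 - m 1 := rfl
theorem ex_two (N : ℕ) (m : Fin 3 →₀ ℕ) : ex k N m 2 = m 2 := rfl

theorem ex_inj {N : ℕ} {m m' : Fin 3 →₀ ℕ} (h : m 1 ≤ N) (h' : m' 1 ≤ N)
    (he : ex k N m = ex k N m') : m = m' := by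
  have e0 := DFunLike.congr_fun he 0
  have e1 := DFunLike.congr_fun he 1
  have e2 := DFunLike.congr_fun he 2
  rw [ex_zero, ex_zero] at e0
  rw [ex_one, ex_one] at e1
  rw [ex_two, ex_two] at e2
  ext i
  fin_cases i
  · exact e0
  · change m 1 = m' 1
    rw [e0, e2] at e1
    omega
  · exact e2

/-- The twisted polynomial. -/
noncomputable def tw (N : ℕ) (q : Q3) : Q3 :=
  ∑ m ∈ q.support, monomial (ex k N m) (q.coeff m)

theorem io_tw {N : ℕ} {q : Q3} (hN : ∀ m ∈ q.support, m 1 ≤ N) :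
    io (tw k N q) = y ^ N * sg0 k q := by
  conv_rhs => rw [q.as_sum]
  rw [tw, map_sum, map_sum, Finset.mul_sum]
  refine Finset.sum_congr rfl fun m hm => ?_
  rw [io_monomial, sg0_monomial, ex_zero, ex_one, ex_two]
  have h1 := hN m hm
  have h2 : y ^ (N + k * m 0 + m 2 - m 1) = y ^ N * (y ^ k) ^ m 0 * y ^ m 2 * y⁻¹ ^ m 1 := by
    rw [inv_pow, eq_mul_inv_iff_mul_eq₀ (pow_ne_zero _ y_ne), ← pow_mul, ← pow_add, ← pow_add,
      ← pow_add]
    congr 1
    omega
  rw [h2, mul_pow, mul_pow]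
  ring

theorem coeff_tw {N : ℕ} {q : Q3} (hN : ∀ m ∈ q.support, m 1 ≤ N) {m : Fin 3 →₀ ℕ}
    (hm : m 1 ≤ N) : (tw k N q).coeff (ex k N m) = q.coeff m := by
  classical
  rw [tw, coeff_sum]
  simp only [coeff_monomial]
  by_cases h : m ∈ q.support
  · rw [Finset.sum_eq_single m]
    · rw [if_pos rfl]
    · intro m' hm' hne
      rw [if_neg]
      intro he
      exact hne (ex_inj k (hN m' hm') hm he)
    · intro h'
      exact absurd h h'
  · rw [notMem_support_iff.1 h]
    apply Finset.sum_eq_zero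
    intro m' hm'
    rw [if_neg]
    intro he
    rw [ex_inj k (hN m' hm') hm he] at hm'
    exact h hm'

/-- A bound for the exponents of the second variable. -/
theorem exists_bound (q : Q3) : ∃ N : ℕ, ∀ m ∈ q.support, m 1 ≤ N :=
  ⟨q.support.sup fun m => m 1, fun _ hm => Finset.le_sup (f := fun m => m 1) hm⟩

theorem sg0_inj : Function.Injective (sg0 k) := by
  rw [injective_iff_map_eq_zero]
  intro q hq
  obtain ⟨N, hN⟩ := exists_bound q
  have h1 := io_tw k hN
  rw [hq, mul_zero, map_eq_zero_iff io io_inj] at h1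
  ext m
  by_cases hm : m ∈ q.support
  · rw [← coeff_tw k hN (hN m hm), h1, coeff_zero, coeff_zero]
  · rw [notMem_support_iff.1 hm, coeff_zero]

/-- The involution of the field of rational functions. -/
noncomputable def sg : K3 →ₐ[ℂ] K3 :=
  IsFractionRing.liftAlgHom (A := Q3) (g := sg0 k) (sg0_inj k)

theorem sg_io (q : Q3) : sg k (io q) = sg0 k q := by
  rw [sg, io_apply]
  exact IsFractionRing.lift_algebraMap (sg0_inj k) q

theorem sg_x : sg k x = x * y ^ k := by rw [x, sg_io, sg0, aeval_X]; rfl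
theorem sg_y : sg k y = y⁻¹ := by rw [y, sg_io, sg0, aeval_X]; rfl
theorem sg_z : sg k z = y * z := by rw [z, sg_io, sg0, aeval_X]; rfl

theorem algHom_ext3 {L : Type} [Field L] [Algebra ℂ L] {φ ψ : K3 →ₐ[ℂ] L} (hx : φ x = ψ x)
    (hy : φ y = ψ y) (hz : φ z = ψ z) : φ = ψ := by
  have h1 : φ.comp io = ψ.comp io := by
    apply MvPolynomial.algHom_ext
    intro i
    fin_cases i
    · exact hx
    · exact hy
    · exact hz
  refine AlgHom.ext fun f => ?_
  obtain ⟨a, b, hb, rfl⟩ := exists_frac Q3 f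
  rw [map_div₀, map_div₀]
  have h2 : ∀ q, φ (algebraMap Q3 K3 q) = ψ (algebraMap Q3 K3 q) := fun q =>
    DFunLike.congr_fun h1 q
  rw [h2, h2]

theorem sg_sg (f : K3) : sg k (sg k f) = f := by
  have h : (sg k).comp (sg k) = AlgHom.id ℂ K3 := by
    apply algHom_ext3
    · simp only [AlgHom.comp_apply, sg_x, map_mul, map_pow, sg_y, AlgHom.id_apply]
      rw [inv_pow, mul_assoc, mul_inv_cancel₀ (pow_ne_zero _ y_ne), mul_one]
    · simp only [AlgHom.comp_apply, sg_y, map_inv₀, inv_inv, AlgHom.id_apply]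
    · simp only [AlgHom.comp_apply, sg_z, map_mul, sg_y, AlgHom.id_apply]
      rw [← mul_assoc, inv_mul_cancel₀ y_ne, one_mul]
  exact DFunLike.congr_fun h f

/-- The polynomial ring as a subalgebra of the function field. -/
noncomputable def QK : Subalgebra ℂ K3 := io.range

/-- The coordinate ring of the cone over the scroll. -/
noncomputable def RK : Subalgebra ℂ K3 := QK ⊓ QK.comap (sg k)

theorem mem_QK {f : K3} : f ∈ QK ↔ ∃ q, io q = f := AlgHom.mem_range io

theorem mem_RK {f : K3} : f ∈ RK k ↔ f ∈ QK ∧ sg k f ∈ QK := by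
  rw [RK, Algebra.mem_inf, Subalgebra.mem_comap]

theorem sg_mem_RK {f : K3} (hf : f ∈ RK k) : sg k f ∈ RK k := by
  rw [mem_RK] at hf ⊢
  rw [sg_sg]
  exact ⟨hf.2, hf.1⟩

theorem io_mem (q : Q3) : io q ∈ QK := mem_QK.2 ⟨q, rfl⟩
theorem x_mem : x ∈ QK := io_mem _
theorem y_mem : y ∈ QK := io_mem _
theorem z_mem : z ∈ QK := io_mem _

/-- The exponents of the elements of the coordinate ring. -/
theorem le_of_mem {q : Q3} (hq : io q ∈ RK k) {m : Fin 3 →₀ ℕ} (hm : m ∈ q.support) :
    m 1 ≤ k * m 0 + m 2 := by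
  obtain ⟨N, hN⟩ := exists_bound q
  obtain ⟨h, hh⟩ := mem_QK.1 ((mem_RK k).1 hq).2
  have h1 := io_tw k hN
  have h2 : sg k (io q) = io h := hh.symm
  rw [← sg_io, h2] at h1
  have h3 : y ^ N * io h = io (X 1 ^ N * h) := by rw [map_mul, map_pow]; rfl
  rw [h3] at h1
  have h4 := io_inj h1
  have h5 := coeff_tw k hN (hN m hm)
  rw [h4] at h5
  have h6 : (X 1 ^ N * h).coeff (ex k N m) ≠ 0 := by
    rw [h5]
    exact mem_support_iff.1 hm
  rw [X_pow_eq_monomial, coeff_monomial_mul'] at h6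
  have h7 : Finsupp.single 1 N ≤ ex k N m := by
    by_contra h8
    rw [if_neg h8] at h6
    exact h6 rfl
  have h8 := h7 1
  rw [Finsupp.single_eq_same, ex_one] at h8
  have h9 := hN m hm
  generalize k * m 0 = t at h8 ⊢
  omega

/-- The constant term is preserved by the involution. -/
theorem coeff_zero_sg {q h : Q3} (hh : sg k (io q) = io h) : h.coeff 0 = q.coeff 0 := by
  obtain ⟨N, hN⟩ := exists_bound q
  have h1 := io_tw k hN
  rw [← sg_io, hh] at h1
  have h3 : y ^ N * io h = io (X 1 ^ N * h) := by rw [map_mul, map_pow]; rfl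
  rw [h3] at h1
  have h4 := io_inj h1
  have h5 := coeff_tw k hN (m := 0) (by simp)
  rw [h4] at h5
  have h6 : ex k N 0 = Finsupp.single 1 N + 0 := by
    ext i
    fin_cases i
    · simp [ex]
    · simp [ex]
    · simp [ex]
  rw [h6, X_pow_eq_monomial, coeff_monomial_mul, one_mul] at h5
  exact h5

end Pool.Agent.H436R3.Fol
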