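import Mathlib
import Pool.Agent.H436R3.Fol.Sigma

/-!
# The cone over the scroll is a normal affine variety
-/

set_option autoImplicit false

namespace Pool.Agent.H436R3.Fol

open MvPolynomial

variable (k : ℕ)

/-- Generators of the coordinate ring. -/
noncomputable def gens : Set K3 := {f | (∃ j, j ≤ k ∧ f = x * y ^ j) ∨ f = z ∨ f = y * z}

theorem gens_finite : (gens k).Finite := by
  have h : gens k ⊆ (Set.range fun j : Fin (k + 1) => x * y ^ (j : ℕ)) ∪ {z, y * z} := by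
    rintro f (⟨j, hj, rfl⟩ | rfl | rfl)
    · exact Or.inl ⟨⟨j, by omega⟩, rfl⟩
    · exact Or.inr (Or.inl rfl)
    · exact Or.inr (Or.inr rfl)
  exact ((Set.finite_range _).union ((Set.finite_singleton _).insert _)).subset h

theorem xy_mem_RK {j : ℕ} (hj : j ≤ k) : x * y ^ j ∈ RK k := by
  rw [mem_RK]
  refine ⟨mul_mem x_mem (pow_mem y_mem _), ?_⟩
  rw [map_mul, map_pow, sg_x, sg_y]
  have h : x * y ^ k * y⁻¹ ^ j = x * y ^ (k - j) := by
    rw [mul_assoc, inv_pow, pow_sub₀ _ y_ne hj]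
  rw [h]
  exact mul_mem x_mem (pow_mem y_mem _)

theorem x_mem_RK : x ∈ RK k := by
  have := xy_mem_RK k (Nat.zero_le k)
  simpa using this

theorem z_mem_RK : z ∈ RK k := by
  rw [mem_RK, sg_z]
  exact ⟨z_mem, mul_mem y_mem z_mem⟩

theorem yz_mem_RK : y * z ∈ RK k := by
  rw [mem_RK, map_mul, sg_z, sg_y, ← mul_assoc, inv_mul_cancel₀ y_ne, one_mul]
  exact ⟨mul_mem y_mem z_mem, z_mem⟩

theorem gx {j : ℕ} (hj : j ≤ k) : x * y ^ j ∈ Algebra.adjoin ℂ (gens k) :=
  Algebra.subset_adjoin (show x * y ^ j ∈ gens k from Or.inl ⟨j, hj, rfl⟩)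

theorem gz : z ∈ Algebra.adjoin ℂ (gens k) :=
  Algebra.subset_adjoin (show z ∈ gens k from Or.inr (Or.inl rfl))

theorem gyz : y * z ∈ Algebra.adjoin ℂ (gens k) :=
  Algebra.subset_adjoin (show y * z ∈ gens k from Or.inr (Or.inr rfl))

theorem mono_mem (a b c : ℕ) (h : b ≤ k * a + c) :
    x ^ a * y ^ b * z ^ c ∈ Algebra.adjoin ℂ (gens k) := by
  induction a generalizing b with
  | zero =>
    rw [pow_zero, one_mul]
    have h' : b ≤ c := by simpa using h
    obtain ⟨e, rfl⟩ := Nat.exists_eq_add_of_le h'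
    have h1 : y ^ b * z ^ (b + e) = (y * z) ^ b * z ^ e := by ring
    rw [h1]
    exact mul_mem (pow_mem (gyz k) _) (pow_mem (gz k) _)
  | succ a ih =>
    by_cases hb : b ≤ k
    · have h1 : x ^ (a + 1) * y ^ b * z ^ c = (x * y ^ b) * (x ^ a * y ^ 0 * z ^ c) := by ring
      rw [h1]
      exact mul_mem (gx k hb) (ih 0 (Nat.zero_le _))
    · obtain ⟨e, rfl⟩ := Nat.exists_eq_add_of_le (not_le.1 hb).le
      have h1 : x ^ (a + 1) * y ^ (k + e) * z ^ c = (x * y ^ k) * (x ^ a * y ^ e * z ^ c) := by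
        ring
      rw [h1]
      refine mul_mem (gx k le_rfl) (ih e ?_)
      have h2 : k * (a + 1) = k * a + k := by ring
      omega

theorem RK_eq : RK k = Algebra.adjoin ℂ (gens k) := by
  apply le_antisymm
  · intro f hf
    obtain ⟨q, rfl⟩ := mem_QK.1 ((mem_RK k).1 hf).1
    have h1 : io q = ∑ m ∈ q.support, io (monomial m (q.coeff m)) := by
      conv_lhs => rw [q.as_sum]
      rw [map_sum]
    rw [h1]
    refine sum_mem fun m hm => ?_
    rw [io_monomial]
    exact mul_mem (Subalgebra.algebraMap_mem _ _) (mono_mem k _ _ _ (le_of_mem k hf hm))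
  · rw [Algebra.adjoin_le_iff]
    rintro f (⟨j, hj, rfl⟩ | rfl | rfl)
    · exact xy_mem_RK k hj
    · exact z_mem_RK k
    · exact yz_mem_RK k

theorem RK_fg : (RK k).FG := by
  rw [RK_eq]
  exact ⟨(gens_finite k).toFinset, by rw [Set.Finite.coe_toFinset]⟩

/-- Multiplication by a large power of `x` or `z` moves a polynomial into the coordinate ring. -/
theorem exists_pow_x (hk : 1 ≤ k) (q : Q3) : ∃ N : ℕ, ∀ M, N ≤ M → x ^ M * io q ∈ RK k := by
  obtain ⟨N, hN⟩ := exists_bound q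
  refine ⟨N, fun M hM => ?_⟩
  rw [mem_RK]
  refine ⟨mul_mem (pow_mem x_mem _) (io_mem _), ?_⟩
  rw [map_mul, map_pow, sg_x, mul_pow, sg_io, ← pow_mul]
  have h1 : N ≤ k * M := hM.trans (Nat.le_mul_of_pos_left _ hk)
  obtain ⟨e, he⟩ := Nat.exists_eq_add_of_le h1
  have h2 : x ^ M * y ^ (k * M) * sg0 k q = x ^ M * y ^ e * io (tw k N q) := by
    rw [io_tw k hN, he, pow_add]
    ring
  rw [h2]
  exact mul_mem (mul_mem (pow_mem x_mem _) (pow_mem y_mem _)) (io_mem _)

theorem exists_pow_z (q : Q3) : ∃ N : ℕ, ∀ M, N ≤ M → z ^ M * io q ∈ RK k := by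
  obtain ⟨N, hN⟩ := exists_bound q
  refine ⟨N, fun M hM => ?_⟩
  rw [mem_RK]
  refine ⟨mul_mem (pow_mem z_mem _) (io_mem _), ?_⟩
  rw [map_mul, map_pow, sg_z, mul_pow, sg_io]
  obtain ⟨e, rfl⟩ := Nat.exists_eq_add_of_le hM
  have h2 : y ^ (N + e) * z ^ (N + e) * sg0 k q = z ^ (N + e) * y ^ e * io (tw k N q) := by
    rw [io_tw k hN, pow_add]
    ring
  rw [h2]
  exact mul_mem (mul_mem (pow_mem z_mem _) (pow_mem y_mem _)) (io_mem _)

theorem RK_frac (f : K3) : ∃ a b : K3, a ∈ RK k ∧ b ∈ RK k ∧ b ≠ 0 ∧ f * b = a := by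
  obtain ⟨p, q, hq, rfl⟩ := exists_frac Q3 f
  obtain ⟨N, hN⟩ := exists_pow_z k p
  obtain ⟨M, hM⟩ := exists_pow_z k q
  have hq' : io q ≠ 0 := (map_ne_zero_iff io io_inj).2 hq
  refine ⟨z ^ (N + M) * io p, z ^ (N + M) * io q, hN _ (Nat.le_add_right _ _),
    hM _ (Nat.le_add_left _ _), mul_ne_zero (pow_ne_zero _ z_ne) hq', ?_⟩
  rw [← io_apply, ← io_apply]
  field_simp

/-- Integral elements over a ring mapping into the polynomial ring are polynomials. -/
theorem mem_QK_of_integral {S : Type} [CommRing S] (φ : S →+* K3) (hφ : ∀ s, φ s ∈ QK)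
    {p : Polynomial S} (hp : p.Monic) {g : K3} (hg : p.eval₂ φ g = 0) : g ∈ QK := by
  let e : Q3 ≃ₐ[ℂ] io.range := AlgEquiv.ofInjective io io_inj
  let ψ : S →+* io.range := φ.codRestrict io.range hφ
  let θ : S →+* Q3 := (e.symm : io.range →+* Q3).comp ψ
  have hθ : (algebraMap Q3 K3).comp θ = φ := by
    ext s
    have h1 : io (e.symm (ψ s)) = (e (e.symm (ψ s)) : K3) := rfl
    rw [AlgEquiv.apply_symm_apply] at h1
    exact h1
  have h2 : IsIntegral Q3 g := by
    refine ⟨p.map θ, hp.map _, ?_⟩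
    rw [Polynomial.eval₂_map, hθ]
    exact hg
  obtain ⟨q, hq⟩ := IsIntegrallyClosed.algebraMap_eq_of_integral h2
  exact mem_QK.2 ⟨q, hq⟩

theorem RK_normal (f : K3) (hf : IsIntegral (RK k) f) : f ∈ RK k := by
  obtain ⟨p, hp, h0⟩ := hf
  rw [mem_RK]
  constructor
  · exact mem_QK_of_integral (algebraMap (RK k) K3) (fun s => ((mem_RK k).1 s.2).1) hp h0
  · refine mem_QK_of_integral ((sg k : K3 →+* K3).comp (algebraMap (RK k) K3))
      (fun s => ((mem_RK k).1 s.2).2) hp ?_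
    have h1 : (sg k : K3 →+* K3) (p.eval₂ (algebraMap (RK k) K3) f) = 0 := by
      rw [h0, map_zero]
    rw [Polynomial.hom_eval₂] at h1
    exact h1

/-- The affine cone over the scroll `S(1, k)`, a normal affine toric threefold. -/
noncomputable def cone : NormalAffine K3 where
  R := RK k
  fg := RK_fg k
  frac := RK_frac k
  normal := RK_normal k

end Pool.Agent.H436R3.Fol
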