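import Mathlib
import Pool.Agent.H436R3.Fol.Ring
import Pool.Agent.H436R3.Fol.Defs
import Pool.Agent.H135R2.VS.Der

/-!
# Derivations of the field of rational functions in three variables
-/

set_option autoImplicit false

namespace Pool.Agent.H436R3.Fol

open MvPolynomial

/-- The variables. -/
noncomputable def vv : Fin 3 → K3 := fun i => io (X i)

theorem vv_ne (i : Fin 3) : vv i ≠ 0 := (map_ne_zero_iff io io_inj).2 (X_ne_zero _)

theorem aeval_vv : (aeval vv : Q3 →ₐ[ℂ] K3) = io := by
  apply MvPolynomial.algHom_ext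
  intro i
  rw [aeval_X]
  rfl

theorem algInd_vv : AlgebraicIndependent ℂ vv := by
  rw [algebraicIndependent_iff_injective_aeval, aeval_vv]
  exact io_inj

theorem exists_th (i : Fin 3) : ∃ D : Derivation ℂ K3 K3, ∀ j, D (vv j) = if i = j then vv j else 0 :=
  Pool.Agent.H135R2.VS.exists_der algInd_vv _

/-- The logarithmic vector fields `x_i ∂ / ∂ x_i`. -/
noncomputable def th (i : Fin 3) : Derivation ℂ K3 K3 := (exists_th i).choose

theorem th_vv (i j : Fin 3) : th i (vv j) = if i = j then vv j else 0 := (exists_th i).choose_spec j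

theorem der_ext3 {D D' : Derivation ℂ K3 K3} (h : ∀ i, D (vv i) = D' (vv i)) : D = D' := by
  have h1 : ∀ q : Q3, D (io q) = D' (io q) := by
    intro q
    induction q using MvPolynomial.induction_on with
    | C a =>
      have h2 : io (C a) = algebraMap ℂ K3 a := by
        rw [← MvPolynomial.algebraMap_eq]
        exact io.commutes a
      rw [h2, Derivation.map_algebraMap, Derivation.map_algebraMap]
    | add p q hp hq => rw [map_add, map_add, map_add, hp, hq]
    | mul_X p j hp =>
      rw [map_mul, Derivation.leibniz, Derivation.leibniz, hp]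
      have := h j
      rw [vv] at this
      rw [this]
  ext f
  obtain ⟨a, b, hb, rfl⟩ := exists_frac Q3 f
  rw [← io_apply, ← io_apply, Derivation.leibniz_div, Derivation.leibniz_div, h1, h1]

theorem der_mem_QK {D : Derivation ℂ K3 K3} (h : ∀ i, D (vv i) ∈ QK) {f : K3} (hf : f ∈ QK) :
    D f ∈ QK := by
  obtain ⟨q, rfl⟩ := mem_QK.1 hf
  clear hf
  induction q using MvPolynomial.induction_on with
  | C a =>
    have h2 : io (C a) = algebraMap ℂ K3 a := by
      rw [← MvPolynomial.algebraMap_eq]
      exact io.commutes a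
    rw [h2, Derivation.map_algebraMap]
    exact zero_mem _
  | add p q hp hq => rw [map_add, map_add]; exact add_mem hp hq
  | mul_X p j hp =>
    rw [map_mul, Derivation.leibniz]
    exact add_mem (mul_mem (io_mem _) (h j)) (mul_mem (io_mem _) hp)

variable (k : ℕ)

/-- Conjugation of a derivation by the involution. -/
noncomputable def cj (D : Derivation ℂ K3 K3) : Derivation ℂ K3 K3 :=
  Derivation.mk' ((sg k).toLinearMap ∘ₗ D.toLinearMap ∘ₗ (sg k).toLinearMap) (by
    intro a b
    change sg k (D (sg k (a * b))) = a * sg k (D (sg k b)) + b * sg k (D (sg k a))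
    rw [map_mul, Derivation.leibniz, map_add, smul_eq_mul, smul_eq_mul, map_mul, map_mul, sg_sg,
      sg_sg])

theorem cj_apply (D : Derivation ℂ K3 K3) (f : K3) : cj k D f = sg k (D (sg k f)) := rfl

theorem cj_cj (D : Derivation ℂ K3 K3) : cj k (cj k D) = D := by
  ext f
  rw [cj_apply, cj_apply, sg_sg, sg_sg]

/-- The vector field generating the foliation. -/
noncomputable def DF : Derivation ℂ K3 K3 := (k : K3) • th 0 - th 1 + th 2

theorem DF_x : DF k (vv 0) = k * vv 0 := by
  simp [DF, th_vv]

theorem DF_y : DF k (vv 1) = - vv 1 := by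
  simp [DF, th_vv]

theorem DF_z : DF k (vv 2) = vv 2 := by
  simp [DF, th_vv]

theorem sg_vv0 : sg k (vv 0) = vv 0 * vv 1 ^ k := sg_x k
theorem sg_vv1 : sg k (vv 1) = (vv 1)⁻¹ := sg_y k
theorem sg_vv2 : sg k (vv 2) = vv 1 * vv 2 := sg_z k

/-- The vector field is the conjugate of `y ∂ / ∂ y`. -/
theorem cj_th1 : cj k (th 1) = DF k := by
  apply der_ext3
  intro i
  rw [cj_apply]
  fin_cases i
  · change sg k (th 1 (sg k (vv 0))) = DF k (vv 0)
    rw [DF_x, sg_vv0, Derivation.leibniz, Derivation.leibniz_pow, th_vv, th_vv]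
    simp only [smul_eq_mul]
    rw [if_true, if_neg (by decide), mul_zero, add_zero]
    rcases Nat.eq_zero_or_pos k with rfl | hk
    · simp
    · have h1 : vv 0 * (k • (vv 1 ^ (k - 1) * vv 1)) = k * (vv 0 * vv 1 ^ k) := by
        rw [← pow_succ, Nat.sub_add_cancel hk, nsmul_eq_mul]
        ring
      rw [h1, ← sg_vv0, map_mul, sg_sg, map_natCast]
  · change sg k (th 1 (sg k (vv 1))) = DF k (vv 1)
    rw [DF_y, sg_vv1, Derivation.leibniz_inv, th_vv, if_pos rfl]
    have h1 : -(vv 1)⁻¹ ^ 2 • vv 1 = - (vv 1)⁻¹ := by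
      have := vv_ne 1
      simp only [smul_eq_mul]
      field_simp
    rw [h1, map_neg, map_inv₀, sg_vv1, inv_inv]
  · change sg k (th 1 (sg k (vv 2))) = DF k (vv 2)
    rw [DF_z, sg_vv2, Derivation.leibniz, th_vv, th_vv, if_neg (by decide), if_pos rfl, smul_zero,
      zero_add, smul_eq_mul, mul_comm, ← sg_vv2, sg_sg]

theorem sum_der_apply {K : Type} [Field K] [Algebra ℂ K] {n : ℕ} (g : Fin n → K)
    (D : Fin n → Derivation ℂ K K) (f : K) : (∑ i, g i • D i) f = ∑ i, g i * D i f := by
  have h : ∀ s : Finset (Fin n), (∑ i ∈ s, g i • D i) f = ∑ i ∈ s, g i * D i f := by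
    classical
    intro s
    induction s using Finset.induction_on with
    | empty => simp
    | insert a s ha ih => rw [Finset.sum_insert ha, Finset.sum_insert ha, Derivation.add_apply, ih,
        Derivation.smul_apply, smul_eq_mul]
  exact h _

theorem th_indep : LinearIndependent K3 th := by
  rw [Fintype.linearIndependent_iff]
  intro g hg i
  have h := DFunLike.congr_fun hg (vv i)
  rw [Derivation.coe_zero, Pi.zero_apply, sum_der_apply] at h
  simp only [th_vv, mul_ite, mul_zero, Finset.sum_ite_eq', Finset.mem_univ, if_true] at h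
  exact (mul_eq_zero.1 h).resolve_right (vv_ne i)

theorem der_eq_sum (D : Derivation ℂ K3 K3) : D = ∑ i, (D (vv i) / vv i) • th i := by
  apply der_ext3
  intro j
  rw [sum_der_apply]
  simp only [th_vv, mul_ite, mul_zero, Finset.sum_ite_eq', Finset.mem_univ, if_true]
  rw [div_mul_cancel₀ _ (vv_ne j)]

theorem span_th : Submodule.span K3 (Set.range th) = ⊤ := by
  rw [eq_top_iff]
  intro D _
  rw [der_eq_sum D]
  exact Submodule.sum_mem _ fun i _ => Submodule.smul_mem _ _ (Submodule.subset_span ⟨i, rfl⟩)

theorem DF_ne : DF k ≠ 0 := by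
  intro h
  have h1 := DF_z k
  rw [h, Derivation.coe_zero, Pi.zero_apply] at h1
  exact vv_ne 2 h1.symm

/-- The foliation of rank one. -/
noncomputable def folF : Foliation K3 1 where
  D := fun _ => DF k
  indep := by
    rw [linearIndependent_unique_iff]
    exact DF_ne k
  closed := by
    intro i j
    rw [lie_self]
    exact zero_mem _

/-- The tangent sheaf. -/
noncomputable def folT : Foliation K3 3 where
  D := th
  indep := th_indep
  closed := by
    intro i j
    rw [span_th]
    trivial

theorem folT_space : folT.space = ⊤ := span_th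

theorem folF_le : (folF k).space ≤ folT.space := by
  rw [folT_space]
  exact le_top

theorem trdeg_K3 : Algebra.trdeg ℂ K3 = 3 := by
  have h1 : Algebra.IsAlgebraic Q3 K3 := IsLocalization.isAlgebraic _ (nonZeroDivisors Q3)
  have h2 := _root_.trdeg_add_eq ℂ Q3 (A := K3)
  rw [← h2, MvPolynomial.trdeg_of_isDomain, _root_.trdeg_eq_zero]
  simp

end Pool.Agent.H436R3.Fol
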