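import Mathlib
import Pool.Agent.H436R3.Fol.Der
import Pool.Agent.H436R3.Fol.LogDer

/-!
# Lower bounds for the canonical orders of the two foliations
-/

set_option autoImplicit false

namespace Pool.Agent.H436R3.Fol

variable (v : DVal K3)

theorem row_apply (A : Matrix (Fin 3) (Fin 3) K3) (i j : Fin 3) :
    (∑ l, A i l • folT.D l) (vv j) / vv j = A i j := by
  rw [sum_der_apply]
  have h : ∀ l, A i l * folT.D l (vv j) = if l = j then A i l * vv j else 0 := by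
    intro l
    change A i l * th l (vv j) = _
    rw [th_vv, mul_ite, mul_zero]
  simp only [h, Finset.sum_ite_eq', Finset.mem_univ, if_true]
  rw [mul_div_cancel_right₀ _ (vv_ne j)]

theorem T_key {A : Matrix (Fin 3) (Fin 3) K3} (hA : ∀ i, Preserves v (∑ j, A i j • folT.D j))
    {π : K3} (hπ : π ≠ 0) (h1 : v.ord π = 1) (i j : Fin 3) :
    A i j - (v.ord (vv j) : K3) * ((∑ l, A i l • folT.D l) π / π) ∈ v.O := by
  have h := logDer_sub v (hA i) hπ h1 (vv_ne j)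
  rw [row_apply] at h
  exact h

theorem T_lower {A : Matrix (Fin 3) (Fin 3) K3} (hA0 : A.det ≠ 0)
    (hA : ∀ i, Preserves v (∑ j, A i j • folT.D j)) : -1 ≤ v.ord A.det := by
  obtain ⟨π, hπ, h1⟩ := v.surj
  refine v.neg_one_le hπ h1 hA0 ?_
  exact det_rankOne_mem v.O (T_key v hA hπ h1) (fun i => reg_pi_logDer v (hA i) hπ h1)
    (fun j => v.reg_intCast _) (v.reg_of_ord (by rw [h1]; norm_num))

theorem mem_space (A : Matrix (Fin 3) (Fin 3) K3) (i : Fin 3) :
    (∑ j, A i j • folT.D j) ∈ folT.space :=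
  Submodule.sum_mem _ fun j _ => Submodule.smul_mem _ _ (Submodule.subset_span ⟨j, rfl⟩)

theorem T_lower_inv {A : Matrix (Fin 3) (Fin 3) K3} (hA0 : A.det ≠ 0)
    (hA : ∀ i, Preserves v (∑ j, A i j • folT.D j)) (hI : IsInvariant folT v) :
    0 ≤ v.ord A.det := by
  obtain ⟨π, hπ, h1⟩ := v.surj
  refine v.ord_nonneg hA0 ?_
  refine det_mem v.O A fun i j => ?_
  have h2 := reg_logDer_of_inv v hπ h1 (hI _ (mem_space A i) (hA i))
  have h3 := T_key v hA hπ h1 i j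
  have h4 : (v.ord (vv j) : K3) * ((∑ l, A i l • folT.D l) π / π) ∈ v.O :=
    mul_mem (v.reg_intCast _) h2
  have h5 := add_mem h3 h4
  rwa [sub_add_cancel] at h5

theorem T_lower_zero {A : Matrix (Fin 3) (Fin 3) K3} (hA0 : A.det ≠ 0)
    (hA : ∀ i, Preserves v (∑ j, A i j • folT.D j)) (h0 : ∀ j, v.ord (vv j) = 0) :
    0 ≤ v.ord A.det := by
  obtain ⟨π, hπ, h1⟩ := v.surj
  refine v.ord_nonneg hA0 ?_
  refine det_mem v.O A fun i j => ?_
  have h3 := T_key v hA hπ h1 i j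
  rwa [h0, Int.cast_zero, zero_mul, sub_zero] at h3

variable (k : ℕ)

theorem F_sum (A : Matrix (Fin 1) (Fin 1) K3) (i : Fin 1) :
    (∑ j, A i j • (folF k).D j) = A.det • DF k := by
  rw [Matrix.det_unique, Fin.sum_univ_one, Subsingleton.elim i 0]
  rfl

theorem F_key {A : Matrix (Fin 1) (Fin 1) K3}
    (hA : ∀ i, Preserves v (∑ j, A i j • (folF k).D j))
    {π : K3} (hπ : π ≠ 0) (h1 : v.ord π = 1) :
    -A.det - (v.ord (vv 1) : K3) * ((A.det • DF k) π / π) ∈ v.O := by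
  have h0 := hA 0
  rw [F_sum] at h0
  have h := logDer_sub v h0 hπ h1 (vv_ne 1)
  have h2 : (A.det • DF k) (vv 1) / vv 1 = -A.det := by
    rw [Derivation.smul_apply, DF_y, smul_eq_mul, mul_neg, neg_div,
      mul_div_cancel_right₀ _ (vv_ne 1)]
  rw [h2] at h
  exact h

theorem F_lower {A : Matrix (Fin 1) (Fin 1) K3} (hA0 : A.det ≠ 0)
    (hA : ∀ i, Preserves v (∑ j, A i j • (folF k).D j)) : -1 ≤ v.ord A.det := by
  obtain ⟨π, hπ, h1⟩ := v.surj
  refine v.neg_one_le hπ h1 hA0 ?_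
  have h0 := hA 0
  rw [F_sum] at h0
  have h3 := reg_pi_logDer v h0 hπ h1
  have hπ' : v.Reg π := v.reg_of_ord (by rw [h1]; norm_num)
  have h4 := v.reg_mul hπ' (F_key v k hA hπ h1)
  have h5 : π * A.det = -(π * (-A.det - (v.ord (vv 1) : K3) * ((A.det • DF k) π / π)) +
      (v.ord (vv 1) : K3) * (π * ((A.det • DF k) π / π))) := by ring
  rw [h5]
  exact v.reg_neg (v.reg_add h4 (v.reg_mul (v.reg_intCast _) h3))

theorem F_lower_inv {A : Matrix (Fin 1) (Fin 1) K3} (hA0 : A.det ≠ 0)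
    (hA : ∀ i, Preserves v (∑ j, A i j • (folF k).D j)) (hI : IsInvariant (folF k) v) :
    0 ≤ v.ord A.det := by
  obtain ⟨π, hπ, h1⟩ := v.surj
  refine v.ord_nonneg hA0 ?_
  have h0 := hA 0
  rw [F_sum] at h0
  have h6 : A.det • DF k ∈ (folF k).space :=
    Submodule.smul_mem _ _ (Submodule.subset_span ⟨0, rfl⟩)
  have h3 := reg_logDer_of_inv v hπ h1 (hI _ h6 h0)
  have h5 : A.det = -((-A.det - (v.ord (vv 1) : K3) * ((A.det • DF k) π / π)) +
      (v.ord (vv 1) : K3) * ((A.det • DF k) π / π)) := by ring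
  rw [h5]
  exact v.reg_neg (v.reg_add (F_key v k hA hπ h1) (v.reg_mul (v.reg_intCast _) h3))

theorem F_lower_zero {A : Matrix (Fin 1) (Fin 1) K3} (hA0 : A.det ≠ 0)
    (hA : ∀ i, Preserves v (∑ j, A i j • (folF k).D j)) (h0 : v.ord (vv 1) = 0) :
    0 ≤ v.ord A.det := by
  obtain ⟨π, hπ, h1⟩ := v.surj
  refine v.ord_nonneg hA0 ?_
  have h3 := F_key v k hA hπ h1
  rw [h0, Int.cast_zero, zero_mul, sub_zero] at h3
  have h5 := v.reg_neg h3
  rwa [neg_neg] at h5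

end Pool.Agent.H436R3.Fol
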