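import Mathlib
import Pool.Agent.H436R3.Fol.Lower

/-!
# Prime divisors on the cone over the scroll
-/

set_option autoImplicit false

namespace Pool.Agent.H436R3.Fol

open MvPolynomial

section general

variable {K : Type} [Field K] [Algebra ℂ K] {v w : DVal K} {S : Subalgebra ℂ K}

theorem reg_of_key (hv : IsLocalRing' S v) (hw : ∀ f ∈ S, w.Reg f)
    (h : ∀ f ∈ S, w.Pos f → v.Pos f) {f : K} (hf : v.Reg f) : w.Reg f := by
  obtain ⟨a, b, ha, hb, hb0, hob, hab⟩ := hv.2 f hf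
  have h1 := w.ord_nonneg hb0 (hw b hb)
  have h2 : w.ord b = 0 := by
    rcases h1.eq_or_lt with h2 | h2
    · exact h2.symm
    · rcases h b hb (Or.inr h2) with h3 | h3
      · exact absurd h3 hb0
      · omega
  have h3 : f = a * b⁻¹ := by
    rw [← hab, mul_assoc, mul_inv_cancel₀ hb0, mul_one]
  rw [h3]
  exact w.reg_mul (hw a ha) (w.reg_inv hb0 h2)

/-- The key lemma: a divisor on `Spec S` is determined by its prime ideal. -/
theorem agree_of_key (hv : IsLocalRing' S v) (hw : ∀ f ∈ S, w.Reg f)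
    (h : ∀ f ∈ S, w.Pos f → v.Pos f) {f : K} (hf : f ≠ 0) : v.ord f = w.ord f := by
  have h2 : ∀ {f : K}, f ≠ 0 → v.ord f = 0 → w.ord f = 0 := by
    intro f hf h0
    have h3 := w.ord_nonneg hf (reg_of_key hv hw h (v.reg_of_ord h0.ge))
    have h4 := w.ord_nonneg (inv_ne_zero hf) (reg_of_key hv hw h (v.reg_inv hf h0))
    rw [w.ord_inv hf] at h4
    omega
  obtain ⟨π, hπ, h1⟩ := v.surj
  have h3 : ∀ {f : K}, f ≠ 0 → w.ord f = v.ord f * w.ord π := by
    intro f hf
    have hn := zpow_ne_zero (v.ord f) hπ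
    have h5 : f * (π ^ v.ord f)⁻¹ ≠ 0 := mul_ne_zero hf (inv_ne_zero hn)
    have h4 := h2 h5 (by
      rw [v.map_mul _ _ hf (inv_ne_zero hn), v.ord_inv hn, v.ord_zpow hπ, h1, mul_one,
        add_neg_cancel])
    rw [w.map_mul _ _ hf (inv_ne_zero hn), w.ord_inv hn, w.ord_zpow hπ] at h4
    omega
  obtain ⟨g, hg, h4⟩ := w.surj
  have h5 := h3 hg
  rw [h4] at h5
  have h6 := w.ord_nonneg hπ (reg_of_key hv hw h (v.reg_of_ord (by rw [h1]; norm_num)))
  have h7 : w.ord π = 1 := by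
    rcases Int.eq_one_or_neg_one_of_mul_eq_one' h5.symm with h | h
    · exact h.2
    · omega
  rw [h3 hf, h7, mul_one]

end general

variable {v : DVal K3} {k : ℕ}

theorem vv_mem (j : Fin 3) : vv j ∈ QK := io_mem _

theorem algebraMap_C (c : ℂ) : io (C c) = algebraMap ℂ K3 c := by
  rw [← MvPolynomial.algebraMap_eq]
  exact io.commutes c

/-- If the variables are regular, then so are the polynomials. -/
theorem QK_reg (h : ∀ j, 0 ≤ v.ord (vv j)) {f : K3} (hf : f ∈ QK) : v.Reg f := by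
  obtain ⟨q, rfl⟩ := mem_QK.1 hf
  clear hf
  induction q using MvPolynomial.induction_on with
  | C a => rw [algebraMap_C]; exact v.reg_const a
  | add p q hp hq => rw [map_add]; exact v.reg_add hp hq
  | mul_X p j hp => rw [map_mul]; exact v.reg_mul hp (v.reg_of_ord (h j))

theorem RK_le_QK {f : K3} (hf : f ∈ RK k) : f ∈ QK := ((mem_RK k).1 hf).1

theorem prime_X (j : Fin 3) : Prime (X j : Q3) := MvPolynomial.X_prime

/-- The coordinate divisors. -/
noncomputable def vX (j : Fin 3) : DVal K3 := valP K3 (X j : Q3) (prime_X j)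

theorem agree_vX (hv : IsLocalRing' (RK k) v) (h : ∀ j, 0 ≤ v.ord (vv j)) {j : Fin 3}
    (hj : 0 < v.ord (vv j)) {f : K3} (hf : f ≠ 0) : v.ord f = (vX j).ord f := by
  refine agree_of_key hv ?_ ?_ hf
  · intro f hf
    obtain ⟨q, rfl⟩ := mem_QK.1 (RK_le_QK hf)
    exact valP_reg (prime_X j) q
  · intro f hf hp
    obtain ⟨q, rfl⟩ := mem_QK.1 (RK_le_QK hf)
    have h1 := (valP_pos_iff (K := K3) (prime_X j) q).1 hp
    obtain ⟨q', rfl⟩ := h1
    rw [map_mul, mul_comm]
    exact v.pos_mul_left (QK_reg h (io_mem _)) (Or.inr hj)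

theorem vX_ord (i j : Fin 3) : (vX i).ord (vv j) = if i = j then 1 else 0 := by
  have h1 : (vX i).ord (vv j) = (multiplicity (X i : Q3) (X j) : ℤ) :=
    valP_ord (prime_X i) (X_ne_zero j)
  rw [h1]
  split_ifs with h
  · rw [h, multiplicity_self]
    rfl
  · rw [multiplicity_eq_zero.2]
    · rfl
    · rw [X_dvd_X]
      exact h

/-- The pull-back of a divisor by the involution. -/
noncomputable def pull (k : ℕ) (v : DVal K3) : DVal K3 where
  ord f := v.ord (sg k f)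
  map_mul f g hf hg := by
    rw [map_mul]
    exact v.map_mul _ _ ((map_ne_zero _).2 hf) ((map_ne_zero _).2 hg)
  map_add f g hf hg hfg := by
    rw [map_add]
    refine v.map_add _ _ ((map_ne_zero _).2 hf) ((map_ne_zero _).2 hg) ?_
    rw [← map_add]
    exact (map_ne_zero _).2 hfg
  surj := by
    obtain ⟨f, hf, h⟩ := v.surj
    refine ⟨sg k f, (map_ne_zero _).2 hf, ?_⟩
    rw [sg_sg]
    exact h
  const c hc := by
    rw [AlgHom.commutes]
    exact v.const c hc

theorem pull_ord (f : K3) : (pull k v).ord f = v.ord (sg k f) := rfl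

theorem pull_reg (f : K3) : (pull k v).Reg f ↔ v.Reg (sg k f) := by
  unfold DVal.Reg
  rw [pull_ord, map_eq_zero]

theorem pull_pos (f : K3) : (pull k v).Pos f ↔ v.Pos (sg k f) := by
  unfold DVal.Pos
  rw [pull_ord, map_eq_zero]

theorem pull_divisor (hv : IsLocalRing' (RK k) v) : IsLocalRing' (RK k) (pull k v) := by
  refine ⟨fun f hf => ?_, fun f hf => ?_⟩
  · rw [pull_reg]
    exact hv.1 _ (sg_mem_RK k hf)
  · rw [pull_reg] at hf
    obtain ⟨a, b, ha, hb, hb0, hob, hab⟩ := hv.2 _ hf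
    refine ⟨sg k a, sg k b, sg_mem_RK k ha, sg_mem_RK k hb, (map_ne_zero _).2 hb0, ?_, ?_⟩
    · rw [pull_ord, sg_sg]
      exact hob
    · rw [← hab, map_mul, sg_sg]

/-- The case of a negative order of `y`. -/
theorem agree_neg (hv : IsLocalRing' (RK k) v) (h : v.ord (vv 1) < 0) {f : K3} (hf : f ≠ 0) :
    (pull k v).ord f = (vX 1).ord f := by
  have h0 : 0 ≤ (pull k v).ord (vv 0) := by
    rw [pull_ord, sg_vv0]
    exact v.ord_nonneg (mul_ne_zero (vv_ne 0) (pow_ne_zero _ (vv_ne 1)))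
      (hv.1 _ (xy_mem_RK k le_rfl))
  have h1 : 0 < (pull k v).ord (vv 1) := by
    rw [pull_ord, sg_vv1, v.ord_inv (vv_ne 1)]
    omega
  have h2 : 0 ≤ (pull k v).ord (vv 2) := by
    rw [pull_ord, sg_vv2]
    exact v.ord_nonneg (mul_ne_zero (vv_ne 1) (vv_ne 2)) (hv.1 _ (yz_mem_RK k))
  refine agree_vX (pull_divisor hv) ?_ h1 hf
  intro j
  fin_cases j
  · exact h0
  · exact h1.le
  · exact h2

theorem ord_neg_eq (hv : IsLocalRing' (RK k) v) (h : v.ord (vv 1) < 0) {f : K3} (hf : f ≠ 0) :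
    v.ord f = (vX 1).ord (sg k f) := by
  rw [← agree_neg hv h ((map_ne_zero _).2 hf), pull_ord, sg_sg]

theorem ord_neg_0 (hv : IsLocalRing' (RK k) v) (h : v.ord (vv 1) < 0) : v.ord (vv 0) = k := by
  rw [ord_neg_eq hv h (vv_ne 0), sg_vv0, (vX 1).map_mul _ _ (vv_ne 0) (pow_ne_zero _ (vv_ne 1)),
    (vX 1).ord_pow (vv_ne 1), vX_ord, vX_ord]
  simp

theorem ord_neg_1 (hv : IsLocalRing' (RK k) v) (h : v.ord (vv 1) < 0) : v.ord (vv 1) = -1 := by
  rw [ord_neg_eq hv h (vv_ne 1), sg_vv1, (vX 1).ord_inv (vv_ne 1), vX_ord]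
  simp

theorem ord_neg_2 (hv : IsLocalRing' (RK k) v) (h : v.ord (vv 1) < 0) : v.ord (vv 2) = 1 := by
  rw [ord_neg_eq hv h (vv_ne 2), sg_vv2, (vX 1).map_mul _ _ (vv_ne 1) (vv_ne 2), vX_ord, vX_ord]
  simp

/-- The partial derivatives. -/
noncomputable def pd (i : Fin 3) : Derivation ℂ K3 K3 := (vv i)⁻¹ • th i

theorem pd_mem (i : Fin 3) {f : K3} (hf : f ∈ QK) : pd i f ∈ QK := by
  refine der_mem_QK ?_ hf
  intro j
  rw [pd, Derivation.smul_apply, th_vv, smul_eq_mul]
  split_ifs with h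
  · rw [h, inv_mul_cancel₀ (vv_ne j)]
    exact one_mem _
  · rw [mul_zero]
    exact zero_mem _

theorem th_mem (i : Fin 3) {f : K3} (hf : f ∈ QK) : th i f ∈ QK := by
  refine der_mem_QK ?_ hf
  intro j
  rw [th_vv]
  split_ifs with h
  · exact vv_mem j
  · exact zero_mem _

theorem DF_mem {f : K3} (hf : f ∈ QK) : DF k f ∈ QK := by
  refine der_mem_QK ?_ hf
  intro j
  fin_cases j
  · change DF k (vv 0) ∈ QK
    rw [DF_x, ← nsmul_eq_mul]
    exact nsmul_mem (vv_mem 0) _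
  · change DF k (vv 1) ∈ QK
    rw [DF_y]
    exact neg_mem (vv_mem 1)
  · change DF k (vv 2) ∈ QK
    rw [DF_z]
    exact vv_mem 2

theorem cj_th0 : cj k (th 0) = th 0 := by
  apply der_ext3
  intro j
  rw [cj_apply]
  fin_cases j
  · change sg k (th 0 (sg k (vv 0))) = th 0 (vv 0)
    rw [sg_vv0, Derivation.leibniz, Derivation.leibniz_pow, th_vv, th_vv, if_pos rfl,
      if_neg (by decide), smul_zero, nsmul_zero, smul_zero, zero_add, smul_eq_mul, mul_comm,
      ← sg_vv0, sg_sg]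
  · change sg k (th 0 (sg k (vv 1))) = th 0 (vv 1)
    rw [sg_vv1, Derivation.leibniz_inv, th_vv, if_neg (by decide), smul_zero, map_zero]
  · change sg k (th 0 (sg k (vv 2))) = th 0 (vv 2)
    rw [sg_vv2, Derivation.leibniz, th_vv, th_vv, if_neg (by decide), if_neg (by decide),
      smul_zero, smul_zero, add_zero, map_zero]

theorem cj_th2 : cj k (th 2) = th 2 := by
  apply der_ext3
  intro j
  rw [cj_apply]
  fin_cases j
  · change sg k (th 2 (sg k (vv 0))) = th 2 (vv 0)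
    rw [sg_vv0, Derivation.leibniz, Derivation.leibniz_pow, th_vv, th_vv, if_neg (by decide),
      if_neg (by decide), smul_zero, nsmul_zero, smul_zero, smul_zero, add_zero, map_zero]
  · change sg k (th 2 (sg k (vv 1))) = th 2 (vv 1)
    rw [sg_vv1, Derivation.leibniz_inv, th_vv, if_neg (by decide), smul_zero, map_zero]
  · change sg k (th 2 (sg k (vv 2))) = th 2 (vv 2)
    rw [sg_vv2, Derivation.leibniz, th_vv, th_vv, if_pos rfl, if_neg (by decide), smul_zero,
      add_zero, smul_eq_mul, ← sg_vv2, sg_sg]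

/-- A derivation such that it and its conjugate preserve the polynomial ring preserves the
coordinate ring. -/
theorem mem_RK_of_cj {D : Derivation ℂ K3 K3} (h1 : ∀ f ∈ QK, D f ∈ QK)
    (h2 : ∀ f ∈ QK, cj k D f ∈ QK) {f : K3} (hf : f ∈ RK k) : D f ∈ RK k := by
  rw [mem_RK] at hf ⊢
  refine ⟨h1 _ hf.1, ?_⟩
  have h3 := h2 _ hf.2
  rwa [cj_apply, sg_sg] at h3

theorem th_RK (i : Fin 3) {f : K3} (hf : f ∈ RK k) : th i f ∈ RK k := by
  refine mem_RK_of_cj (fun _ => th_mem i) ?_ hf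
  fin_cases i
  · change ∀ f ∈ QK, cj k (th 0) f ∈ QK
    rw [cj_th0]
    exact fun _ => th_mem 0
  · change ∀ f ∈ QK, cj k (th 1) f ∈ QK
    rw [cj_th1]
    exact fun _ => DF_mem
  · change ∀ f ∈ QK, cj k (th 2) f ∈ QK
    rw [cj_th2]
    exact fun _ => th_mem 2

theorem DF_RK {f : K3} (hf : f ∈ RK k) : DF k f ∈ RK k := by
  refine mem_RK_of_cj (fun _ => DF_mem) ?_ hf
  rw [← cj_th1, cj_cj]
  exact fun _ => th_mem 1

theorem th_pres (hv : IsLocalRing' (RK k) v) (i : Fin 3) : Preserves v (th i) :=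
  preserves_of v hv fun f hf => hv.1 _ (th_RK i hf)

theorem DF_pres (hv : IsLocalRing' (RK k) v) : Preserves v (DF k) :=
  preserves_of v hv fun f hf => hv.1 _ (DF_RK hf)

theorem pd_pres (hv : IsLocalRing' (RK k) v) (h : ∀ j, 0 ≤ v.ord (vv j)) (i : Fin 3) :
    Preserves v (pd i) :=
  preserves_of v hv fun f hf => QK_reg h (pd_mem i (RK_le_QK hf))

theorem cj_pd1 : cj k (pd 1) = vv 1 • DF k := by
  ext f
  rw [cj_apply, pd, Derivation.smul_apply, Derivation.smul_apply, smul_eq_mul, smul_eq_mul,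
    map_mul, map_inv₀, sg_vv1, inv_inv, ← cj_th1, cj_apply]

theorem yDF_pres (hv : IsLocalRing' (RK k) v) (h : v.ord (vv 1) < 0) :
    Preserves v (vv 1 • DF k) := by
  rw [← cj_pd1]
  intro f hf
  rw [cj_apply, ← pull_reg]
  have h1 : ∀ j, 0 ≤ (pull k v).ord (vv j) := by
    intro j
    rw [agree_neg hv h (vv_ne j), vX_ord]
    split_ifs
    · norm_num
    · norm_num
  refine pd_pres (pull_divisor hv) h1 1 _ ?_
  rw [pull_reg, sg_sg]
  exact hf

theorem isCanOrd_of {K : Type} [Field K] [Algebra ℂ K] {r : ℕ} {F : Foliation K r} {v : DVal K}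
    {n : ℤ} (A : Matrix (Fin r) (Fin r) K) (h0 : A.det ≠ 0)
    (hA : ∀ i, Preserves v (∑ j, A i j • F.D j)) (hn : v.ord A.det = n)
    (hl : ∀ A : Matrix (Fin r) (Fin r) K, A.det ≠ 0 →
      (∀ i, Preserves v (∑ j, A i j • F.D j)) → n ≤ v.ord A.det) : IsCanOrd F v n :=
  ⟨⟨A, h0, hA, hn⟩, fun _ ⟨B, hB0, hB, hm⟩ => hm ▸ hl B hB0 hB⟩

theorem F_lower_zero' {A : Matrix (Fin 1) (Fin 1) K3} (hA0 : A.det ≠ 0)
    (hA : ∀ i, Preserves v (∑ j, A i j • (folF k).D j)) (h0 : v.ord (vv 2) = 0) :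
    0 ≤ v.ord A.det := by
  obtain ⟨π, hπ, h1⟩ := v.surj
  refine v.ord_nonneg hA0 ?_
  have h3 := hA 0
  rw [F_sum] at h3
  have h := logDer_sub v h3 hπ h1 (vv_ne 2)
  have h2 : (A.det • DF k) (vv 2) / vv 2 = A.det := by
    rw [Derivation.smul_apply, DF_z, smul_eq_mul, mul_div_cancel_right₀ _ (vv_ne 2)]
  rwa [h2, h0, Int.cast_zero, zero_mul, sub_zero] at h

/-- The canonical order of the foliation of rank one at a divisor where `y` is regular. -/
theorem canF_nonneg (hv : IsLocalRing' (RK k) v) (h : v.ord (vv 1) = 0 ∨ v.ord (vv 2) = 0) :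
    IsCanOrd (folF k) v 0 := by
  refine isCanOrd_of 1 ?_ ?_ ?_ ?_
  · rw [Matrix.det_one]
    exact one_ne_zero
  · intro i
    rw [F_sum, Matrix.det_one, one_smul]
    exact DF_pres hv
  · rw [Matrix.det_one, v.ord_one]
  · intro A hA0 hA
    rcases h with h | h
    · exact F_lower_zero v k hA0 hA h
    · exact F_lower_zero' hA0 hA h

theorem canF_neg (hv : IsLocalRing' (RK k) v) (h : v.ord (vv 1) < 0) :
    IsCanOrd (folF k) v (-1) := by
  refine isCanOrd_of (Matrix.of fun _ _ => vv 1) ?_ ?_ ?_ ?_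
  · rw [Matrix.det_unique]
    exact vv_ne 1
  · intro i
    rw [F_sum, Matrix.det_unique]
    exact yDF_pres hv h
  · rw [Matrix.det_unique]
    exact ord_neg_1 hv h
  · intro A hA0 hA
    exact F_lower v k hA0 hA

theorem canT_neg (hv : IsLocalRing' (RK k) v) (h : v.ord (vv 1) < 0) :
    IsCanOrd folT v (-1) := by
  have hdet : (!![1, 0, 0; (k : K3) * vv 1, -vv 1, vv 1; 0, 0, 1] : Matrix (Fin 3) (Fin 3) K3).det =
      -vv 1 := by
    rw [Matrix.det_fin_three]
    simp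
  refine isCanOrd_of !![1, 0, 0; (k : K3) * vv 1, -vv 1, vv 1; 0, 0, 1] ?_ ?_ ?_ ?_
  · rw [hdet]
    exact neg_ne_zero.2 (vv_ne 1)
  · intro i
    fin_cases i
    · have h1 : (∑ j, (!![1, 0, 0; (k : K3) * vv 1, -vv 1, vv 1; 0, 0, 1] :
          Matrix (Fin 3) (Fin 3) K3) 0 j • folT.D j) = th 0 := by
        rw [Fin.sum_univ_three]
        simp [folT]
      change Preserves v (∑ j, (!![1, 0, 0; (k : K3) * vv 1, -vv 1, vv 1; 0, 0, 1] :
          Matrix (Fin 3) (Fin 3) K3) 0 j • folT.D j)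
      rw [h1]
      exact th_pres hv 0
    · have h1 : (∑ j, (!![1, 0, 0; (k : K3) * vv 1, -vv 1, vv 1; 0, 0, 1] :
          Matrix (Fin 3) (Fin 3) K3) 1 j • folT.D j) = vv 1 • DF k := by
        rw [Fin.sum_univ_three]
        simp only [folT, DF]
        ext f
        simp
        ring
      change Preserves v (∑ j, (!![1, 0, 0; (k : K3) * vv 1, -vv 1, vv 1; 0, 0, 1] :
          Matrix (Fin 3) (Fin 3) K3) 1 j • folT.D j)
      rw [h1]
      exact yDF_pres hv h
    · have h1 : (∑ j, (!![1, 0, 0; (k : K3) * vv 1, -vv 1, vv 1; 0, 0, 1] :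
          Matrix (Fin 3) (Fin 3) K3) 2 j • folT.D j) = th 2 := by
        rw [Fin.sum_univ_three]
        simp [folT]
      change Preserves v (∑ j, (!![1, 0, 0; (k : K3) * vv 1, -vv 1, vv 1; 0, 0, 1] :
          Matrix (Fin 3) (Fin 3) K3) 2 j • folT.D j)
      rw [h1]
      exact th_pres hv 2
  · rw [hdet, v.ord_neg (vv_ne 1)]
    exact ord_neg_1 hv h
  · intro A hA0 hA
    exact T_lower v hA0 hA

theorem diag_sum (d : Fin 3 → K3) (i : Fin 3) :
    (∑ j, Matrix.diagonal d i j • folT.D j) = d i • th i := by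
  rw [Finset.sum_eq_single i]
  · rw [Matrix.diagonal_apply_eq]
    rfl
  · intro j _ hj
    rw [Matrix.diagonal_apply_ne _ hj.symm, zero_smul]
  · intro h
    exact absurd (Finset.mem_univ _) h

theorem canT_pos (hv : IsLocalRing' (RK k) v) (h : ∀ j, 0 ≤ v.ord (vv j)) {l : Fin 3}
    (hl : 0 < v.ord (vv l)) : IsCanOrd folT v (-1) := by
  have hdet : (Matrix.diagonal (Function.update (1 : Fin 3 → K3) l (vv l)⁻¹)).det = (vv l)⁻¹ := by
    rw [Matrix.det_diagonal, Finset.prod_update_of_mem (Finset.mem_univ _)]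
    simp
  refine isCanOrd_of (Matrix.diagonal (Function.update (1 : Fin 3 → K3) l (vv l)⁻¹)) ?_ ?_ ?_ ?_
  · rw [hdet]
    exact inv_ne_zero (vv_ne l)
  · intro i
    rw [diag_sum]
    by_cases hi : i = l
    · subst hi
      rw [Function.update_self]
      exact pd_pres hv h i
    · rw [Function.update_of_ne hi, Pi.one_apply, one_smul]
      exact th_pres hv i
  · rw [hdet, v.ord_inv (vv_ne l), agree_vX hv h hl (vv_ne l), vX_ord, if_pos rfl]
  · intro A hA0 hA
    exact T_lower v hA0 hA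

theorem canT_zero (hv : IsLocalRing' (RK k) v) (h : ∀ j, v.ord (vv j) = 0) :
    IsCanOrd folT v 0 := by
  refine isCanOrd_of 1 ?_ ?_ ?_ ?_
  · rw [Matrix.det_one]
    exact one_ne_zero
  · intro i
    rw [← Matrix.diagonal_one, diag_sum, one_smul]
    exact th_pres hv i
  · rw [Matrix.det_one, v.ord_one]
  · intro A hA0 hA
    exact T_lower_zero v hA0 hA h

/-- The product of the coordinates. -/
noncomputable def xyz : K3 := vv 0 * vv 1 * vv 2

theorem xyz_ne : xyz ≠ 0 := mul_ne_zero (mul_ne_zero (vv_ne 0) (vv_ne 1)) (vv_ne 2)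

theorem ord_xyz (v : DVal K3) : v.ord xyz = v.ord (vv 0) + v.ord (vv 1) + v.ord (vv 2) := by
  rw [xyz, v.map_mul _ _ (mul_ne_zero (vv_ne 0) (vv_ne 1)) (vv_ne 2),
    v.map_mul _ _ (vv_ne 0) (vv_ne 1)]

/-- The multiplicities of the canonical divisors at the prime divisors of the cone. -/
theorem classify (hv : IsLocalRing' (RK k) v) :
    (v.ord (vv 1) < 0 ∧ v.ord xyz = k ∧ IsCanOrd (folF k) v (-1) ∧ IsCanOrd folT v (-1)) ∨
    (0 ≤ v.ord (vv 1) ∧ v.ord xyz = 1 ∧ IsCanOrd (folF k) v 0 ∧ IsCanOrd folT v (-1)) ∨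
    (0 ≤ v.ord (vv 1) ∧ v.ord xyz = 0 ∧ IsCanOrd (folF k) v 0 ∧ IsCanOrd folT v 0) := by
  by_cases h : v.ord (vv 1) < 0
  · left
    refine ⟨h, ?_, canF_neg hv h, canT_neg hv h⟩
    rw [ord_xyz, ord_neg_0 hv h, ord_neg_1 hv h, ord_neg_2 hv h]
    ring
  · right
    rw [not_lt] at h
    have h' : ∀ j, 0 ≤ v.ord (vv j) := by
      intro j
      fin_cases j
      · exact v.ord_nonneg (vv_ne 0) (hv.1 _ (x_mem_RK k))
      · exact h
      · exact v.ord_nonneg (vv_ne 2) (hv.1 _ (z_mem_RK k))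
    by_cases h0 : ∃ l, 0 < v.ord (vv l)
    · left
      obtain ⟨l, hl⟩ := h0
      have e : ∀ j, v.ord (vv j) = if l = j then 1 else 0 := fun j => by
        rw [agree_vX hv h' hl (vv_ne j), vX_ord]
      refine ⟨h, ?_, canF_nonneg hv ?_, canT_pos hv h' hl⟩
      · rw [ord_xyz, e, e, e]
        fin_cases l <;> simp
      · rw [e, e]
        fin_cases l <;> simp
    · right
      have e : ∀ j, v.ord (vv j) = 0 := by
        intro j
        rw [not_exists] at h0
        have := h0 j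
        have := h' j
        omega
      refine ⟨h, ?_, canF_nonneg hv (Or.inl (e 1)), canT_zero hv e⟩
      rw [ord_xyz, e, e, e]
      rfl

end Pool.Agent.H436R3.Fol
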